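import Pool.Agent.Helper90.UN.Local

/-!
# Ad-stable spaces of primitive elements

`y_1, …, y_n` are linearly independent primitive elements of a Hopf algebra `B` whose span is stable
under the adjoint action, `b ▷ y_j = ∑ m_ij(b) y_i`. Then the linear forms `m_ij` are central in the
dual algebra of `B`.
-/

set_option linter.unusedSectionVars false
set_option autoImplicit false

open scoped TensorProduct
open WithConv

namespace Pool.Agent.Helper76.FA

open Pool.Agent.Helper90.UN

universe u

section

variable {k : Type u} [Field k] {B : Type u} [Ring B] [HopfAlgebra k B]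

/-- `a ⊗ b ↦ g(b) a` -/
noncomputable def sr (g : B →ₗ[k] k) : B ⊗[k] B →ₗ[k] B :=
  (TensorProduct.rid k B).toLinearMap ∘ₗ LinearMap.lTensor B g

theorem sr_tmul (g : B →ₗ[k] k) (a b : B) : sr g (a ⊗ₜ[k] b) = g b • a := by simp [sr]

/-- `b ↦ g(b) 1` -/
noncomputable def eta (g : B →ₗ[k] k) : B →ₗ[k] B := Algebra.linearMap k B ∘ₗ g

theorem eta_apply (g : B →ₗ[k] k) (b : B) : eta g b = g b • (1 : B) := by
  rw [eta, LinearMap.comp_apply, Algebra.linearMap_apply, Algebra.algebraMap_eq_smul_one]

theorem sr_il_mul (g : B →ₗ[k] k) (a : B) (t : B ⊗[k] B) : sr g (il k B a * t) = a * sr g t := by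
  induction t using TensorProduct.induction_on with
  | zero => simp
  | add s t hs ht => rw [mul_add, map_add, map_add, hs, ht, mul_add]
  | tmul x y =>
    rw [il_apply, Algebra.TensorProduct.tmul_mul_tmul, sr_tmul, sr_tmul, one_mul, mul_smul_comm]

theorem sr_il (g : B →ₗ[k] k) (X : B →ₗ[k] B ⊗[k] B) :
    toConv (sr g ∘ₗ (toConv (il k B).toLinearMap * toConv X).ofConv) =
      toConv LinearMap.id * toConv (sr g ∘ₗ X) := by
  have h : ∀ t : B ⊗[k] B, sr g (LinearMap.mul' k (B ⊗[k] B)
      (TensorProduct.map (il k B).toLinearMap X t)) = LinearMap.mul' k B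
      (TensorProduct.map LinearMap.id (sr g ∘ₗ X) t) := by
    intro t
    induction t using TensorProduct.induction_on with
    | zero => simp
    | add s t hs ht => simp only [map_add, hs, ht]
    | tmul a b =>
      rw [TensorProduct.map_tmul, TensorProduct.map_tmul, LinearMap.mul'_apply,
        LinearMap.mul'_apply]
      exact sr_il_mul g a (X b)
  ext b
  exact h (Coalgebra.comul (R := k) b)

theorem sr_irS (g : B →ₗ[k] k) :
    toConv (sr g ∘ₗ (toConv (ir k B).toLinearMap *
      toConv ((il k B).toLinearMap ∘ₗ HopfAlgebra.antipode k (A := B))).ofConv) =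
      toConv (eta g) * toConv (HopfAlgebra.antipode k (A := B)) := by
  have h : ∀ t : B ⊗[k] B, sr g (LinearMap.mul' k (B ⊗[k] B)
      (TensorProduct.map (ir k B).toLinearMap
        ((il k B).toLinearMap ∘ₗ HopfAlgebra.antipode k (A := B)) t)) =
      LinearMap.mul' k B (TensorProduct.map (eta g) (HopfAlgebra.antipode k (A := B)) t) := by
    intro t
    induction t using TensorProduct.induction_on with
    | zero => simp
    | add s t hs ht => simp only [map_add, hs, ht]
    | tmul a b =>
      rw [TensorProduct.map_tmul, TensorProduct.map_tmul, LinearMap.mul'_apply,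
        LinearMap.mul'_apply, eta_apply, smul_one_mul]
      change sr g (((1 : B) ⊗ₜ[k] a) * ((HopfAlgebra.antipode k b) ⊗ₜ[k] (1 : B))) = _
      rw [Algebra.TensorProduct.tmul_mul_tmul, one_mul, mul_one, sr_tmul]
  ext b
  exact h (Coalgebra.comul (R := k) b)

/-- contraction of `∑ b₁ S(b₃) ⊗ b₂` -/
theorem sr_kk (g : B →ₗ[k] k) : toConv (sr g ∘ₗ kk k B) =
    toConv LinearMap.id * (toConv (eta g) * toConv (HopfAlgebra.antipode k (A := B))) := by
  have h1 := sr_il g ((toConv (ir k B).toLinearMap *
    toConv ((il k B).toLinearMap ∘ₗ HopfAlgebra.antipode k (A := B))).ofConv)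
  rw [sr_irS] at h1
  exact h1

/-- `∑ b₁ g(b₂) = ∑ g(b₁) b₂` -/
def Cen (g : B →ₗ[k] k) : Prop :=
  toConv (LinearMap.id : B →ₗ[k] B) * toConv (eta g) = toConv (eta g) * toConv LinearMap.id

theorem cen_of_sr (g : B →ₗ[k] k) (h : ∀ b, sr g (kk k B b) = g b • (1 : B)) : Cen g := by
  have h1 : toConv LinearMap.id * (toConv (eta g) * toConv (HopfAlgebra.antipode k (A := B))) =
      toConv (eta g) := by
    rw [← sr_kk]
    ext b
    change sr g (kk k B b) = eta g b
    rw [h, eta_apply]
  unfold Cen
  calc toConv (LinearMap.id : B →ₗ[k] B) * toConv (eta g)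
      = toConv LinearMap.id * (toConv (eta g) * (toConv (HopfAlgebra.antipode k (A := B)) *
          toConv LinearMap.id)) := by rw [LinearMap.antipode_mul_id, mul_one]
    _ = (toConv LinearMap.id * (toConv (eta g) * toConv (HopfAlgebra.antipode k (A := B)))) *
          toConv LinearMap.id := by simp only [mul_assoc]
    _ = toConv (eta g) * toConv LinearMap.id := by rw [h1]

/-- In a convolution algebra with commutative values `b ↦ g(b) q` is central if `g` is. -/
theorem Cen.comm {P : Type u} [CommRing P] [Algebra k P] {g : B →ₗ[k] k} (hg : Cen g) (q : P)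
    (h : WithConv (B →ₗ[k] P)) :
    h * toConv (g.smulRight q) = toConv (g.smulRight q) * h := by
  have h1 : ∀ t : B ⊗[k] B, LinearMap.mul' k P (TensorProduct.map h.ofConv (g.smulRight q) t) =
      h.ofConv (LinearMap.mul' k B (TensorProduct.map LinearMap.id (eta g) t)) * q := by
    intro t
    induction t using TensorProduct.induction_on with
    | zero => simp
    | add s t hs ht => simp only [map_add, hs, ht, add_mul]
    | tmul a b =>
      rw [TensorProduct.map_tmul, TensorProduct.map_tmul, LinearMap.mul'_apply,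
        LinearMap.mul'_apply, eta_apply, mul_smul_comm, mul_one, LinearMap.smulRight_apply,
        LinearMap.id_apply, map_smul, mul_smul_comm, smul_mul_assoc]
  have h2 : ∀ t : B ⊗[k] B, LinearMap.mul' k P (TensorProduct.map (g.smulRight q) h.ofConv t) =
      h.ofConv (LinearMap.mul' k B (TensorProduct.map (eta g) LinearMap.id t)) * q := by
    intro t
    induction t using TensorProduct.induction_on with
    | zero => simp
    | add s t hs ht => simp only [map_add, hs, ht, add_mul]
    | tmul a b =>
      rw [TensorProduct.map_tmul, TensorProduct.map_tmul, LinearMap.mul'_apply,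
        LinearMap.mul'_apply, eta_apply, smul_one_mul, LinearMap.smulRight_apply,
        LinearMap.id_apply, map_smul, smul_mul_assoc, smul_mul_assoc, mul_comm]
  ext b
  have h3 : LinearMap.mul' k B (TensorProduct.map LinearMap.id (eta g)
      (Coalgebra.comul (R := k) b)) = LinearMap.mul' k B (TensorProduct.map (eta g) LinearMap.id
      (Coalgebra.comul (R := k) b)) := LinearMap.congr_fun (congrArg ofConv hg) b
  change LinearMap.mul' k P (TensorProduct.map h.ofConv (g.smulRight q)
    (Coalgebra.comul (R := k) b)) = LinearMap.mul' k P (TensorProduct.map (g.smulRight q) h.ofConv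
    (Coalgebra.comul (R := k) b))
  rw [h1, h2, h3]

theorem Cen.comm' {g : B →ₗ[k] k} (hg : Cen g) (h : WithConv (B →ₗ[k] k)) :
    h * toConv g = toConv g * h := by
  have h1 : g.smulRight (1 : k) = g := by
    ext b
    rw [LinearMap.smulRight_apply, smul_eq_mul, mul_one]
  have h2 := hg.comm (1 : k) h
  rw [h1] at h2
  exact h2

theorem exists_dual {n : ℕ} {y : Fin n → B} (hli : LinearIndependent k y) :
    ∃ φ : Fin n → (B →ₗ[k] k), ∀ i j, φ i (y j) = if i = j then 1 else 0 := by
  classical
  obtain ⟨g, hg⟩ := LinearMap.exists_leftInverse_of_injective (Fintype.linearCombination k y)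
    (by
      rw [LinearMap.ker_eq_bot']
      intro c hc
      rw [Fintype.linearCombination_apply] at hc
      funext i
      exact Fintype.linearIndependent_iff.1 hli c hc i)
  refine ⟨fun i => LinearMap.proj i ∘ₗ g, fun i j => ?_⟩
  have h1 : Fintype.linearCombination k y (Pi.single j 1) = y j := by
    rw [Fintype.linearCombination_apply_single, one_smul]
  rw [LinearMap.comp_apply, ← h1]
  have h2 := LinearMap.congr_fun hg (Pi.single j 1)
  rw [LinearMap.comp_apply, LinearMap.id_apply] at h2
  rw [h2, LinearMap.proj_apply, Pi.single_apply]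

theorem coeff_eq {n : ℕ} {y : Fin n → B} (hli : LinearIndependent k y) {c d : Fin n → k}
    (h : ∑ i, c i • y i = ∑ i, d i • y i) (i : Fin n) : c i = d i := by
  obtain ⟨φ, hφ⟩ := exists_dual hli
  have h1 := congrArg (φ i) h
  rw [map_sum, map_sum] at h1
  simpa [map_smul, hφ] using h1

variable {n : ℕ} {y : Fin n → B} {m : Fin n → Fin n → (B →ₗ[k] k)}

theorem cen_of_adj (hy : ∀ i, Coalgebra.comul (R := k) (y i) = y i ⊗ₜ[k] 1 + 1 ⊗ₜ[k] y i)
    (hli : LinearIndependent k y) (hm : ∀ b j, adj k b (y j) = ∑ i, m i j b • y i)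
    (i j : Fin n) : Cen (m i j) := by
  classical
  refine cen_of_sr _ fun b => ?_
  obtain ⟨φ, hφ⟩ := exists_dual hli
  have h1 := comul_adj (y j) (hy j) b
  have h2 : ∀ t : B ⊗[k] B, sr (φ i) (LinearMap.lTensor B (adR k (y j)) t) = sr (m i j) t := by
    intro t
    induction t using TensorProduct.induction_on with
    | zero => simp
    | add s t hs ht => simp only [map_add, hs, ht]
    | tmul a c =>
      rw [LinearMap.lTensor_tmul, sr_tmul, sr_tmul, adR_apply, hm, map_sum]
      simp [map_smul, hφ]
  have h3 := congrArg (sr (φ i)) h1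
  rw [map_add, h2, sr_tmul] at h3
  have h4 : Coalgebra.comul (R := k) (adj k b (y j)) =
      adj k b (y j) ⊗ₜ[k] 1 + 1 ⊗ₜ[k] adj k b (y j) := by
    rw [hm, map_sum, TensorProduct.sum_tmul, TensorProduct.tmul_sum, ← Finset.sum_add_distrib]
    refine Finset.sum_congr rfl fun i _ => ?_
    rw [map_smul, hy, smul_add, TensorProduct.smul_tmul', TensorProduct.tmul_smul]
  have h5 : φ i (adj k b (y j)) = m i j b := by
    rw [hm, map_sum]
    simp [map_smul, hφ]
  rw [h4, map_add, sr_tmul, sr_tmul, h5] at h3
  exact (add_left_cancel h3).symm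

theorem adj_sum (b : B) (c : Fin n → k) (s : Finset (Fin n)) :
    adj k b (∑ i ∈ s, c i • y i) = ∑ i ∈ s, c i • adj k b (y i) := by
  classical
  induction s using Finset.induction_on with
  | empty => rw [Finset.sum_empty, Finset.sum_empty, adj_tensor_zero]
  | insert a s ha ih =>
    rw [Finset.sum_insert ha, Finset.sum_insert ha, adj_tensor_add, adj_tensor_smul, ih]

theorem m_mul (hli : LinearIndependent k y) (hm : ∀ b j, adj k b (y j) = ∑ i, m i j b • y i)
    (b b' : B) (i j : Fin n) : m i j (b * b') = ∑ l, m i l b * m l j b' := by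
  refine coeff_eq hli (c := fun i => m i j (b * b')) (d := fun i => ∑ l, m i l b * m l j b') ?_ i
  rw [← hm, adj_mul, hm b' j, adj_sum]
  simp only [hm, Finset.smul_sum, Finset.sum_smul]
  rw [Finset.sum_comm]
  refine Finset.sum_congr rfl fun i _ => Finset.sum_congr rfl fun l _ => ?_
  rw [smul_smul, mul_comm]

theorem m_one (hli : LinearIndependent k y) (hm : ∀ b j, adj k b (y j) = ∑ i, m i j b • y i)
    (i j : Fin n) : m i j 1 = if i = j then 1 else 0 := by
  refine coeff_eq hli (c := fun i => m i j 1) (d := fun i => if i = j then 1 else 0) ?_ i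
  rw [← hm, adj_one]
  simp

/-- The adjoint action of a commutative Hopf algebra is trivial. -/
theorem adj_comm {F : Type u} [CommRing F] [HopfAlgebra k F] (a x : F) :
    adj k a x = Coalgebra.counit (R := k) a • x := by
  have h : ∀ t : F ⊗[k] F, LinearMap.mul' k F (TensorProduct.map (LinearMap.mulRight k x)
      (HopfAlgebra.antipode k) t) = x * LinearMap.mul' k F (LinearMap.lTensor F
        (HopfAlgebra.antipode k) t) := by
    intro t
    induction t using TensorProduct.induction_on with
    | zero => simp
    | add s t hs ht => simp only [map_add, hs, ht, mul_add]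
    | tmul a b =>
      rw [TensorProduct.map_tmul, LinearMap.mul'_apply, LinearMap.lTensor_tmul,
        LinearMap.mul'_apply, LinearMap.mulRight_apply]
      ring
  unfold adj
  rw [h, HopfAlgebra.mul_antipode_lTensor_comul_apply, Algebra.smul_def, mul_comm]

end

section

variable {k : Type u} [Field k] {F B : Type u} [CommRing F] [Ring B] [HopfAlgebra k F]
  [HopfAlgebra k B] (ι : F →ₐc[k] B) {n : ℕ} {x : Fin n → F} {m : Fin n → Fin n → (B →ₗ[k] k)}

theorem comul_map {a : F} (ha : Coalgebra.comul (R := k) a = a ⊗ₜ[k] 1 + 1 ⊗ₜ[k] a) :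
    Coalgebra.comul (R := k) (ι a) = ι a ⊗ₜ[k] 1 + 1 ⊗ₜ[k] ι a := by
  have h1 := LinearMap.congr_fun ι.toCoalgHom.map_comp_comul a
  change TensorProduct.map ι.toCoalgHom.toLinearMap ι.toCoalgHom.toLinearMap
    (Coalgebra.comul (R := k) a) = Coalgebra.comul (R := k) (ι a) at h1
  rw [← h1, ha, map_add, TensorProduct.map_tmul, TensorProduct.map_tmul]
  change ι a ⊗ₜ[k] ι 1 + ι 1 ⊗ₜ[k] ι a = _
  rw [map_one]

theorem li_map (hι : Function.Injective ι) (hli : LinearIndependent k x) :
    LinearIndependent k fun i => ι (x i) := by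
  have h := hli.map' (ι : F →ₐ[k] B).toLinearMap (LinearMap.ker_eq_bot.2 hι)
  exact h

theorem m_iota (hι : Function.Injective ι) (hli : LinearIndependent k x)
    (hm : ∀ b j, adj k b (ι (x j)) = ∑ i, m i j b • ι (x i)) (a : F) (i j : Fin n) :
    m i j (ι a) = if i = j then Coalgebra.counit (R := k) a else 0 := by
  refine coeff_eq (li_map ι hι hli) (c := fun i => m i j (ι a))
    (d := fun i => if i = j then Coalgebra.counit (R := k) a else 0) ?_ i
  rw [← hm, ← map_adj, adj_comm, map_smul]
  simp

end

end Pool.Agent.Helper76.FA
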