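import Pool.Agent.Helper90.FC.FRed

/-!
# Hopf algebras of height one generated by primitive elements

`F` is a commutative bialgebra over a field of characteristic `p`, generated by linearly independent
primitive elements `x_1, …, x_n` with `x_i^p = 0`. Then the monomials in the `x_i` with exponents
smaller than `p` form a basis of `F`.

The independence of the monomials of degree at most `d` is proved by induction on `d`. For a relation
`f` of degree `d + 1` we contract the second factor of the comultiplication with a linear form `w`
which has the value `δ_{β, e_i}` at the monomials `x^β` of degree at most `d`. The result is the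
relation `∂_i f + c` of degree at most `d`.
-/

set_option linter.unusedSectionVars false
set_option autoImplicit false

open scoped TensorProduct

namespace Pool.Agent.Helper76.FA

open Pool.Agent.Helper90.FC

universe u

section

variable {k : Type u} [Field k] {F : Type u} [CommRing F] [Bialgebra k F] {n : ℕ}

/-- contraction of the second factor of the comultiplication -/
noncomputable def Lw (w : F →ₗ[k] k) : F →ₗ[k] F := FStr_phi k F w ∘ₗ Coalgebra.comul

/-- the linear form `a ↦ w (y a)` -/
noncomputable def shf (w : F →ₗ[k] k) (y : F) : F →ₗ[k] k := w ∘ₗ LinearMap.mulLeft k y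

theorem shf_apply (w : F →ₗ[k] k) (y a : F) : shf w y a = w (y * a) := rfl

theorem Lw_one (w : F →ₗ[k] k) : Lw w 1 = w 1 • (1 : F) := by
  change FStr_phi k F w (Coalgebra.comul (R := k) 1) = _
  rw [Bialgebra.comul_one, Algebra.TensorProduct.one_def, FStr_phi_tmul]

theorem Lw_sub_smul (w w' : F →ₗ[k] k) (c : k) (a : F) :
    Lw (w - c • w') a = Lw w a - c • Lw w' a := by
  have h : ∀ t : F ⊗[k] F, FStr_phi k F (w - c • w') t =
      FStr_phi k F w t - c • FStr_phi k F w' t := by
    intro t
    induction t using TensorProduct.induction_on with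
    | zero => simp
    | add s t hs ht => rw [map_add, map_add, map_add, hs, ht, smul_add]; abel
    | tmul a b =>
      rw [FStr_phi_tmul, FStr_phi_tmul, FStr_phi_tmul, LinearMap.sub_apply, LinearMap.smul_apply,
        sub_smul, smul_eq_mul, mul_smul]
  exact h _

theorem Lw_counit (a : F) : Lw (Coalgebra.counit (R := k)) a = a := by
  change FStr_phi k F Coalgebra.counit (Coalgebra.comul (R := k) a) = a
  simp [FStr_phi, Coalgebra.lTensor_counit_comul]

theorem Lw_mul (w : F →ₗ[k] k) {y : F}
    (hy : Coalgebra.comul (R := k) y = y ⊗ₜ[k] 1 + 1 ⊗ₜ[k] y) (a : F) :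
    Lw w (y * a) = y * Lw w a + Lw (shf w y) a := by
  have h : ∀ t : F ⊗[k] F, FStr_phi k F w ((y ⊗ₜ[k] 1 + 1 ⊗ₜ[k] y) * t) =
      y * FStr_phi k F w t + FStr_phi k F (shf w y) t := by
    intro t
    induction t using TensorProduct.induction_on with
    | zero => simp
    | add s t hs ht => rw [mul_add, map_add, map_add, map_add, hs, ht, mul_add]; abel
    | tmul a b =>
      rw [add_mul, map_add, Algebra.TensorProduct.tmul_mul_tmul,
        Algebra.TensorProduct.tmul_mul_tmul, one_mul, one_mul, FStr_phi_tmul, FStr_phi_tmul,
        FStr_phi_tmul, FStr_phi_tmul, shf_apply, mul_smul_comm]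
  change FStr_phi k F w (Coalgebra.comul (R := k) (y * a)) = _
  rw [Bialgebra.comul_mul, hy, h]
  rfl

/-- A linear form vanishing on the short products. -/
theorem Lw_short {x : Fin n → F}
    (hx : ∀ i, Coalgebra.comul (R := k) (x i) = x i ⊗ₜ[k] 1 + 1 ⊗ₜ[k] x i) (l : List (Fin n)) :
    ∀ (r : ℕ) (w : F →ₗ[k] k), (∀ l' : List (Fin n), l'.length < r → w (l'.map x).prod = 0) →
      l.length ≤ r → Lw w (l.map x).prod = w (l.map x).prod • (1 : F) := by
  induction l with
  | nil =>
    intro r w _ _
    rw [List.map_nil, List.prod_nil, Lw_one]
  | cons j l ih =>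
    intro r w hw hl
    rw [List.length_cons] at hl
    obtain ⟨r', rfl⟩ : ∃ r', r = r' + 1 := ⟨r - 1, by omega⟩
    rw [List.map_cons, List.prod_cons, Lw_mul w (hx j), ih (r' + 1) w hw (by omega),
      hw l (by omega), zero_smul, mul_zero, zero_add, ih r' (shf w (x j)) ?_ (by omega)]
    · rfl
    · intro l' hl'
      rw [shf_apply]
      have h1 := hw (j :: l') (by rw [List.length_cons]; omega)
      rw [List.map_cons, List.prod_cons] at h1
      exact h1

open MvPolynomial in
theorem Lw_list {x : Fin n → F}
    (hx : ∀ i, Coalgebra.comul (R := k) (x i) = x i ⊗ₜ[k] 1 + 1 ⊗ₜ[k] x i)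
    (hx0 : ∀ i, Coalgebra.counit (R := k) (x i) = 0) (i : Fin n) (r : ℕ) (w : F →ₗ[k] k)
    (h0 : w 1 = 0) (h1 : ∀ j, w (x j) = if i = j then 1 else 0)
    (h2 : ∀ l' : List (Fin n), 2 ≤ l'.length → l'.length < r → w (l'.map x).prod = 0)
    (l : List (Fin n)) :
    (l.length < r → Lw w (l.map x).prod = aeval x (pderiv i ((l.map X).prod :
      MvPolynomial (Fin n) k))) ∧
    (l.length ≤ r → ∃ c : k, Lw w (l.map x).prod = aeval x (pderiv i ((l.map X).prod :
      MvPolynomial (Fin n) k)) + c • (1 : F)) := by
  have hX : ∀ l : List (Fin n), aeval x ((l.map X).prod : MvPolynomial (Fin n) k) =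
      (l.map x).prod := by
    intro l
    induction l with
    | nil => simp
    | cons j l ih => rw [List.map_cons, List.prod_cons, map_mul, ih, aeval_X, List.map_cons,
        List.prod_cons]
  induction l with
  | nil =>
    have h : Lw w (([] : List (Fin n)).map x).prod = aeval x (pderiv i
        ((([] : List (Fin n)).map X).prod : MvPolynomial (Fin n) k)) := by
      rw [List.map_nil, List.prod_nil, List.map_nil, List.prod_nil, Lw_one, h0, zero_smul,
        Derivation.map_one_eq_zero, map_zero]
    exact ⟨fun _ => h, fun _ => ⟨0, by rw [zero_smul, add_zero, h]⟩⟩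
  | cons j l ih =>
    have hder : aeval x (pderiv i (((j :: l).map X).prod : MvPolynomial (Fin n) k)) =
        x j * aeval x (pderiv i ((l.map X).prod : MvPolynomial (Fin n) k)) +
          (if i = j then (1 : k) else 0) • (l.map x).prod := by
      rw [List.map_cons, List.prod_cons, Derivation.leibniz, smul_eq_mul, smul_eq_mul, map_add,
        map_mul, map_mul, aeval_X, hX, pderiv_X]
      congr 1
      by_cases hij : i = j
      · subst hij
        rw [Pi.single_eq_same, map_one, mul_one, if_pos rfl, one_smul]
      · rw [Pi.single_eq_of_ne (Ne.symm hij), map_zero, mul_zero, if_neg hij, zero_smul]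
    -- the remaining linear form
    have hw' : ∀ l' : List (Fin n), l'.length < r - 1 →
        (shf w (x j) - (if i = j then (1 : k) else 0) • Coalgebra.counit (R := k) : F →ₗ[k] k)
          (l'.map x).prod = 0 := by
      intro l' hl'
      rw [LinearMap.sub_apply, LinearMap.smul_apply, shf_apply]
      rcases l' with _ | ⟨a, l'⟩
      · rw [List.map_nil, List.prod_nil, mul_one, h1, Bialgebra.counit_one, smul_eq_mul, mul_one,
          sub_self]
      · have h3 := h2 (j :: a :: l') (by simp) (by
          simp only [List.length_cons] at hl' ⊢
          omega)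
        rw [List.map_cons, List.prod_cons] at h3
        rw [h3, List.map_cons, List.prod_cons, Bialgebra.counit_mul, hx0, zero_mul, smul_zero,
          sub_zero]
    have hmain : ∀ hl : l.length + 1 ≤ r, Lw w (((j :: l)).map x).prod =
        x j * Lw w (l.map x).prod + (if i = j then (1 : k) else 0) • (l.map x).prod +
        ((shf w (x j) - (if i = j then (1 : k) else 0) • Coalgebra.counit (R := k) : F →ₗ[k] k)
          (l.map x).prod) • (1 : F) := by
      intro hl
      have h3 := Lw_short hx l (r - 1) _ hw' (by omega)
      rw [Lw_sub_smul, Lw_counit] at h3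
      rw [← h3, List.map_cons, List.prod_cons, Lw_mul w (hx j)]
      abel
    constructor
    · intro hl
      rw [List.length_cons] at hl
      rw [hmain (by omega), hw' l (by omega), zero_smul, add_zero, ih.1 (by omega), hder]
    · intro hl
      rw [List.length_cons] at hl
      refine ⟨(shf w (x j) - (if i = j then (1 : k) else 0) • Coalgebra.counit (R := k) :
        F →ₗ[k] k) (l.map x).prod, ?_⟩
      rw [hmain hl, ih.1 (by omega), hder]

/-- The degree of an exponent. -/
theorem exists_list (s : Fin n →₀ ℕ) : ∃ l : List (Fin n), l.length = ∑ i, s i ∧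
    ((l.map MvPolynomial.X).prod : MvPolynomial (Fin n) k) = MvPolynomial.monomial s 1 := by
  classical
  induction s using Finsupp.induction_linear with
  | zero => exact ⟨[], by simp, by simp⟩
  | add s t hs ht =>
    obtain ⟨l, hl, hl'⟩ := hs
    obtain ⟨m, hm, hm'⟩ := ht
    refine ⟨l ++ m, ?_, ?_⟩
    · rw [List.length_append, hl, hm, ← Finset.sum_add_distrib]
      rfl
    · rw [List.map_append, List.prod_append, hl', hm', MvPolynomial.monomial_mul, one_mul]
  | single i c =>
    refine ⟨List.replicate c i, ?_, ?_⟩
    · rw [List.length_replicate, Finset.sum_eq_single i]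
      · rw [Finsupp.single_eq_same]
      · intro b _ hb
        rw [Finsupp.single_eq_of_ne hb]
      · intro h
        exact absurd (Finset.mem_univ i) h
    · rw [List.map_replicate, List.prod_replicate, MvPolynomial.X_pow_eq_monomial]

variable (k n) in
/-- The polynomials of degree at most `d` in each of whose monomials all exponents are smaller
than `p`. -/
def Vd (p d : ℕ) : Submodule k (MvPolynomial (Fin n) k) where
  carrier := {f | ∀ s, MvPolynomial.coeff s f ≠ 0 → (∀ i, s i < p) ∧ ∑ i, s i ≤ d}
  add_mem' := by
    intro f g hf hg s hs
    rw [MvPolynomial.coeff_add] at hs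
    by_cases h : MvPolynomial.coeff s f = 0
    · rw [h, zero_add] at hs
      exact hg s hs
    · exact hf s h
  zero_mem' := by
    intro s hs
    rw [MvPolynomial.coeff_zero] at hs
    exact absurd rfl hs
  smul_mem' := by
    intro c f hf s hs
    rw [MvPolynomial.coeff_smul] at hs
    exact hf s (right_ne_zero_of_smul hs)

theorem mem_Vd {p d : ℕ} {f : MvPolynomial (Fin n) k} : f ∈ Vd k n p d ↔
    ∀ s, MvPolynomial.coeff s f ≠ 0 → (∀ i, s i < p) ∧ ∑ i, s i ≤ d := Iff.rfl

theorem sum_single (s : Fin n →₀ ℕ) (i : Fin n) :
    ∑ l, (s + Finsupp.single i 1 : Fin n →₀ ℕ) l = ∑ l, s l + 1 := by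
  simp only [Finsupp.coe_add, Pi.add_apply]
  rw [Finset.sum_add_distrib]
  congr 1
  rw [Finset.sum_eq_single i]
  · rw [Finsupp.single_eq_same]
  · intro b _ hb
    rw [Finsupp.single_eq_of_ne hb]
  · intro h
    exact absurd (Finset.mem_univ i) h

end

section

variable {k : Type u} [Field k] {p : ℕ} [Fact p.Prime] [CharP k p] {F : Type u} [CommRing F]
  [Bialgebra k F] {n : ℕ}

open MvPolynomial in
theorem indep_low {x : Fin n → F}
    (hx : ∀ i, Coalgebra.comul (R := k) (x i) = x i ⊗ₜ[k] 1 + 1 ⊗ₜ[k] x i)
    (hx0 : ∀ i, Coalgebra.counit (R := k) (x i) = 0) (hli : LinearIndependent k x)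
    (hxp : ∀ i, x i ^ p = 0) (d : ℕ) :
    ∀ f ∈ Vd k n p (d + 1), aeval x f = 0 → f = 0 := by
  classical
  have hX : ∀ l : List (Fin n), aeval x ((l.map X).prod : MvPolynomial (Fin n) k) =
      (l.map x).prod := by
    intro l
    induction l with
    | nil => simp
    | cons j l ih => rw [List.map_cons, List.prod_cons, map_mul, ih, aeval_X, List.map_cons,
        List.prod_cons]
  induction d with
  | zero =>
    intro f hf h0
    -- `f` is affine-linear
    have hlow : ∀ s : Fin n →₀ ℕ, ∑ i, s i ≤ 1 → s = 0 ∨ ∃ i, s = Finsupp.single i 1 := by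
      intro s hs
      by_cases h : ∃ i, s i ≠ 0
      · obtain ⟨i, hi⟩ := h
        right
        refine ⟨i, ?_⟩
        have h1 : ∑ l, s l = s i + ∑ l ∈ Finset.univ.erase i, s l :=
          (Finset.add_sum_erase _ _ (Finset.mem_univ i)).symm
        ext l
        by_cases hl : l = i
        · subst hl
          rw [Finsupp.single_eq_same]
          omega
        · rw [Finsupp.single_eq_of_ne hl]
          have h2 : s l ≤ ∑ l ∈ Finset.univ.erase i, s l := Finset.single_le_sum
            (f := fun l => s l) (fun _ _ => Nat.zero_le _)
            (Finset.mem_erase.2 ⟨hl, Finset.mem_univ l⟩)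
          omega
      · left
        push Not at h
        ext i
        exact h i
    have hf1 : f = C (coeff 0 f) + ∑ i, C (coeff (Finsupp.single i 1) f) * X i := by
      ext s
      rw [coeff_add, coeff_C, coeff_sum]
      have h2 : ∀ i, coeff s (C (coeff (Finsupp.single i 1) f) * X i) =
          if s = Finsupp.single i 1 then coeff s f else 0 := by
        intro i
        rw [coeff_C_mul, coeff_X]
        by_cases h : Finsupp.single i 1 = s
        · rw [if_pos h, mul_one, if_pos h.symm, h]
        · rw [if_neg h, mul_zero, if_neg (Ne.symm h)]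
      simp only [h2]
      by_cases hs : coeff s f = 0
      · rw [hs]
        symm
        have : (if (0 : Fin n →₀ ℕ) = s then coeff 0 f else 0) = 0 := by
          split_ifs with h
          · rw [h, hs]
          · rfl
        rw [this, zero_add]
        exact Finset.sum_eq_zero fun i _ => by rw [ite_self]
      · rcases hlow s ((mem_Vd.1 hf) s hs).2 with h | ⟨i, h⟩
        · subst h
          rw [if_pos rfl]
          rw [Finset.sum_eq_zero, add_zero]
          intro i _
          rw [if_neg]
          intro h
          have := DFunLike.congr_fun h i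
          rw [Finsupp.single_eq_same] at this
          exact absurd this (by simp)
        · subst h
          rw [if_neg, zero_add, Finset.sum_eq_single i]
          · rw [if_pos rfl]
          · intro j _ hj
            rw [if_neg]
            intro h
            have := DFunLike.congr_fun h i
            rw [Finsupp.single_eq_same, Finsupp.single_eq_of_ne (Ne.symm hj)] at this
            exact one_ne_zero this
          · intro h
            exact absurd (Finset.mem_univ i) h
          · intro h
            have := DFunLike.congr_fun h i
            rw [Finsupp.single_eq_same] at this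
            exact absurd this (by simp)
    have hev : algebraMap k F (coeff 0 f) + ∑ i, coeff (Finsupp.single i 1) f • x i = 0 := by
      rw [← h0]
      conv_rhs => rw [hf1]
      rw [map_add, aeval_C, map_sum]
      congr 1
      refine Finset.sum_congr rfl fun i _ => ?_
      rw [map_mul, aeval_C, aeval_X, Algebra.smul_def]
    have hc0 : coeff 0 f = 0 := by
      have h1 := congrArg (Coalgebra.counit (R := k)) hev
      rw [map_add, Bialgebra.counit_algebraMap, map_sum, map_zero, Finset.sum_eq_zero,
        add_zero] at h1
      · exact h1
      · intro i _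
        rw [map_smul, hx0, smul_zero]
    have hci : ∀ i, coeff (Finsupp.single i 1) f = 0 := by
      rw [hc0, map_zero, zero_add] at hev
      exact Fintype.linearIndependent_iff.1 hli _ hev
    rw [hf1, hc0, map_zero, zero_add]
    exact Finset.sum_eq_zero fun i _ => by rw [hci, map_zero, zero_mul]
  | succ d ih =>
    intro f hf h0
    -- the evaluation on `Vd` and a retraction
    have hker : LinearMap.ker ((aeval x : MvPolynomial (Fin n) k →ₐ[k] F).toLinearMap ∘ₗ
        (Vd k n p (d + 1)).subtype) = ⊥ := by
      rw [LinearMap.ker_eq_bot']
      intro g hg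
      exact Subtype.ext (ih g g.2 hg)
    obtain ⟨g, hg⟩ := LinearMap.exists_leftInverse_of_injective _ hker
    have hg' : ∀ q ∈ Vd k n p (d + 1), ((g (aeval x q) : Vd k n p (d + 1)) :
        MvPolynomial (Fin n) k) = q := by
      intro q hq
      have h1 := LinearMap.congr_fun hg ⟨q, hq⟩
      exact congrArg Subtype.val h1
    have hkey : ∀ i, ∃ c : k, aeval x (pderiv i f + C c) = 0 := by
      intro i
      let w : F →ₗ[k] k := MvPolynomial.lcoeff k (Finsupp.single i 1) ∘ₗ
        (Vd k n p (d + 1)).subtype ∘ₗ g
      have hw : ∀ q ∈ Vd k n p (d + 1), w (aeval x q) = coeff (Finsupp.single i 1) q := by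
        intro q hq
        change coeff (Finsupp.single i 1) ((g (aeval x q) : Vd k n p (d + 1)) :
          MvPolynomial (Fin n) k) = _
        rw [hg' q hq]
      have hone : (1 : MvPolynomial (Fin n) k) ∈ Vd k n p (d + 1) := by
        intro s hs
        rw [coeff_one] at hs
        have h1 : (0 : Fin n →₀ ℕ) = s := by
          by_contra h
          rw [if_neg h] at hs
          exact hs rfl
        subst h1
        exact ⟨fun i => (Fact.out : p.Prime).pos, by simp⟩
      have hXj : ∀ j, (X j : MvPolynomial (Fin n) k) ∈ Vd k n p (d + 1) := by
        intro j s hs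
        rw [coeff_X] at hs
        have h1 : Finsupp.single j 1 = s := by
          by_contra h
          rw [if_neg h] at hs
          exact hs rfl
        subst h1
        constructor
        · intro l
          by_cases hl : l = j
          · subst hl
            rw [Finsupp.single_eq_same]
            exact (Fact.out : p.Prime).one_lt
          · rw [Finsupp.single_eq_of_ne hl]
            exact (Fact.out : p.Prime).pos
        · have h2 := sum_single (n := n) 0 j
          rw [zero_add] at h2
          rw [h2]
          simp
      have hw0 : w 1 = 0 := by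
        have h1 := hw 1 hone
        rw [map_one] at h1
        rw [h1, coeff_one, if_neg]
        intro h
        have := DFunLike.congr_fun h i
        rw [Finsupp.single_eq_same] at this
        exact absurd this (by simp)
      have hw1 : ∀ j, w (x j) = if i = j then 1 else 0 := by
        intro j
        have h1 := hw (X j) (hXj j)
        rw [aeval_X] at h1
        rw [h1, coeff_X]
        by_cases hij : i = j
        · subst hij
          rw [if_pos rfl, if_pos rfl]
        · rw [if_neg hij, if_neg]
          intro h
          have := DFunLike.congr_fun h j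
          rw [Finsupp.single_eq_same, Finsupp.single_eq_of_ne (Ne.symm hij)] at this
          exact one_ne_zero this
      have hw2 : ∀ l' : List (Fin n), 2 ≤ l'.length → l'.length < d + 2 →
          w (l'.map x).prod = 0 := by
        intro l' h2 h3
        -- the exponent of the list
        obtain ⟨s, hs, hs'⟩ : ∃ s : Fin n →₀ ℕ, (∑ i, s i) = l'.length ∧
            ((l'.map X).prod : MvPolynomial (Fin n) k) = monomial s 1 := by
          clear h2 h3
          induction l' with
          | nil => exact ⟨0, by simp, by simp⟩
          | cons j l' ih' =>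
            obtain ⟨s, hs, hs'⟩ := ih'
            refine ⟨s + Finsupp.single j 1, ?_, ?_⟩
            · rw [sum_single, hs, List.length_cons]
            · rw [List.map_cons, List.prod_cons, hs', X, monomial_mul, one_mul, add_comm]
        by_cases hbox : ∀ i, s i < p
        · have h4 : (monomial s 1 : MvPolynomial (Fin n) k) ∈ Vd k n p (d + 1) := by
            intro t ht
            rw [coeff_monomial] at ht
            have h5 : s = t := by
              by_contra h
              rw [if_neg h] at ht
              exact ht rfl
            subst h5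
            exact ⟨hbox, by omega⟩
          rw [← hX, hs', hw _ h4, coeff_monomial, if_neg]
          intro h
          rw [h] at hs
          have h5 := sum_single (n := n) 0 i
          rw [zero_add, hs] at h5
          simp only [Finsupp.coe_zero, Pi.zero_apply, Finset.sum_const_zero] at h5
          omega
        · push Not at hbox
          obtain ⟨j, hj⟩ := hbox
          rw [← hX, hs', aeval_monomial, Finsupp.prod_fintype _ _ (fun i => pow_zero _),
            Finset.prod_eq_zero (Finset.mem_univ j), mul_zero, map_zero]
          rw [← Nat.sub_add_cancel hj, pow_add, hxp, mul_zero]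
      have hfull : ∀ q : MvPolynomial (Fin n) k, (∀ s, coeff s q ≠ 0 → ∑ i, s i ≤ d + 2) →
          ∃ c : k, Lw w (aeval x q) = aeval x (pderiv i q) + c • (1 : F) := by
        intro q hq
        have h3 : ∀ s : Fin n →₀ ℕ, ∃ c : k, ∑ i, s i ≤ d + 2 →
            Lw w (aeval x (monomial s (1 : k))) = aeval x (pderiv i (monomial s (1 : k))) +
              c • (1 : F) := by
          intro s
          obtain ⟨l, hl, hl'⟩ := exists_list (k := k) s
          by_cases h : ∑ i, s i ≤ d + 2
          · obtain ⟨c, hc⟩ := (Lw_list hx hx0 i (d + 2) w hw0 hw1 hw2 l).2 (by omega)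
            refine ⟨c, fun _ => ?_⟩
            rw [← hl', hX, hc]
          · exact ⟨0, fun h' => absurd h' h⟩
        choose c hc using h3
        refine ⟨∑ s ∈ q.support, coeff s q * c s, ?_⟩
        have hq1 : q = ∑ s ∈ q.support, coeff s q • monomial s (1 : k) := by
          conv_lhs => rw [← support_sum_monomial_coeff q]
          refine Finset.sum_congr rfl fun s _ => ?_
          rw [smul_monomial, smul_eq_mul, mul_one]
        have hL : Lw w (aeval x q) = ∑ s ∈ q.support, coeff s q •
            Lw w (aeval x (monomial s (1 : k))) := by
          conv_lhs => rw [hq1]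
          rw [map_sum, map_sum]
          refine Finset.sum_congr rfl fun s _ => ?_
          rw [map_smul, map_smul]
        have hR : aeval x (pderiv i q) = ∑ s ∈ q.support, coeff s q •
            aeval x (pderiv i (monomial s (1 : k))) := by
          conv_lhs => rw [hq1]
          rw [map_sum, map_sum]
          refine Finset.sum_congr rfl fun s _ => ?_
          rw [Derivation.map_smul, map_smul]
        rw [hL, hR, Finset.sum_smul, ← Finset.sum_add_distrib]
        refine Finset.sum_congr rfl fun s hs => ?_
        rw [hc s (hq s (mem_support_iff.1 hs)), smul_add, mul_smul]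
      obtain ⟨c, hc⟩ := hfull f fun s hs => ((mem_Vd.1 hf) s hs).2
      refine ⟨c, ?_⟩
      rw [h0, map_zero] at hc
      rw [map_add, aeval_C, Algebra.algebraMap_eq_smul_one, ← hc]
    -- the monomials of degree at least two do not occur
    refine ih f ?_ h0
    intro s hs
    have hs1 := (mem_Vd.1 hf) s hs
    refine ⟨hs1.1, ?_⟩
    by_contra hlt
    have hsd : ∑ i, s i = d + 2 := by
      have := hs1.2
      omega
    obtain ⟨i, hi⟩ : ∃ i, 0 < s i := by
      by_contra hno
      have h0 : ∑ i, s i = 0 := Finset.sum_eq_zero fun i _ => by
        by_contra h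
        exact hno ⟨i, Nat.pos_of_ne_zero h⟩
      omega
    have hst : (s - Finsupp.single i 1) + Finsupp.single i 1 = s := by
      ext j
      by_cases hj : i = j
      · subst hj
        simp only [Finsupp.coe_add, Finsupp.coe_tsub, Pi.add_apply, Pi.sub_apply,
          Finsupp.single_eq_same]
        omega
      · simp [Finsupp.single_eq_of_ne (Ne.symm hj)]
    generalize s - Finsupp.single i 1 = t at hst
    obtain ⟨c, hc⟩ := hkey i
    have hmem : pderiv i f + C c ∈ Vd k n p (d + 1) := by
      intro r hr
      rw [coeff_add, coeff_pderiv, coeff_C] at hr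
      by_cases h : 0 = r
      · subst h
        exact ⟨fun i => (Fact.out : p.Prime).pos, by simp⟩
      · rw [if_neg h, add_zero] at hr
        obtain ⟨h1, h2⟩ := (mem_Vd.1 hf) _ (left_ne_zero_of_mul hr)
        rw [sum_single] at h2
        refine ⟨fun j => ?_, by omega⟩
        have h3 := h1 j
        rw [Finsupp.add_apply] at h3
        omega
    have hz := ih _ hmem hc
    have hz' : coeff t (pderiv i f + C c) = 0 := by rw [hz, coeff_zero]
    rw [coeff_add, coeff_pderiv, coeff_C, if_neg, add_zero, hst] at hz'
    · have hti : t i + 1 = s i := by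
        rw [← hst]
        simp
      have h1 : (((s i : ℕ) : k)) ≠ 0 := by
        intro h0
        rw [CharP.cast_eq_zero_iff k p] at h0
        have h2 := Nat.le_of_dvd hi h0
        have h3 := hs1.1 i
        omega
      rw [← hti] at h1
      push_cast at h1
      exact (mul_ne_zero hs h1) hz'
    · intro h
      rw [← h, zero_add] at hst
      have h5 := sum_single (n := n) 0 i
      rw [zero_add, hst] at h5
      simp only [Finsupp.coe_zero, Pi.zero_apply, Finset.sum_const_zero] at h5
      omega

theorem counit_prim {y : F} (hy : Coalgebra.comul (R := k) y = y ⊗ₜ[k] 1 + 1 ⊗ₜ[k] y) :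
    Coalgebra.counit (R := k) y = 0 := by
  have h1 := Coalgebra.rTensor_counit_comul (R := k) y
  rw [hy, map_add, LinearMap.rTensor_tmul, LinearMap.rTensor_tmul, Bialgebra.counit_one] at h1
  have h2 := congrArg (TensorProduct.lid k F) h1
  rw [map_add, TensorProduct.lid_tmul, TensorProduct.lid_tmul, one_smul] at h2
  have h3 : Coalgebra.counit (R := k) y • (1 : F) = 0 := by
    have h4 : Coalgebra.counit (R := k) y • (1 : F) + y = 0 + y := by rw [h2, zero_add]
    exact add_right_cancel h4
  have h4 := congrArg (Coalgebra.counit (R := k)) h3
  rw [map_smul, Bialgebra.counit_one, map_zero, smul_eq_mul, mul_one] at h4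
  exact h4

/-- A commutative bialgebra of characteristic `p` generated by linearly independent primitive
elements with vanishing `p`-th powers is a truncated polynomial algebra. -/
theorem coords_of_prim (x : Fin n → F)
    (hx : ∀ i, Coalgebra.comul (R := k) (x i) = x i ⊗ₜ[k] 1 + 1 ⊗ₜ[k] x i)
    (hxp : ∀ i, x i ^ p = 0) (hli : LinearIndependent k x)
    (hgen : Algebra.adjoin k (Set.range x) = ⊤) : ∃ c : Coords k p F n, c.x = x := by
  classical
  have hx0 : ∀ i, Coalgebra.counit (R := k) (x i) = 0 := fun i => counit_prim (hx i)
  let mon : (Fin n → Fin p) → F := fun α => ∏ i, x i ^ (α i : ℕ)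
  let e : (Fin n → Fin p) → (Fin n →₀ ℕ) :=
    fun α => Finsupp.equivFunOnFinite.symm fun i => (α i : ℕ)
  have he : ∀ α β, e α = e β → α = β := by
    intro α β h
    funext i
    apply Fin.ext
    have := DFunLike.congr_fun h i
    simpa [e] using this
  have hmli : LinearIndependent k mon := by
    rw [Fintype.linearIndependent_iff]
    intro g hg α
    let f : MvPolynomial (Fin n) k := ∑ β, MvPolynomial.monomial (e β) (g β)
    have hcoeff : ∀ s, MvPolynomial.coeff s f = ∑ β, if e β = s then g β else 0 := by
      intro s
      simp only [f, MvPolynomial.coeff_sum, MvPolynomial.coeff_monomial]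
    have hf0 : MvPolynomial.aeval x f = 0 := by
      rw [map_sum, ← hg]
      refine Finset.sum_congr rfl fun β _ => ?_
      rw [MvPolynomial.aeval_monomial, ← Algebra.smul_def, Finsupp.prod_fintype]
      · rfl
      · intro i
        rw [pow_zero]
    have hbox : f ∈ Vd k n p (n * p + 1) := by
      intro s hs
      rw [hcoeff] at hs
      obtain ⟨β, _, hβ⟩ := Finset.exists_ne_zero_of_sum_ne_zero hs
      have h1 : e β = s := by
        by_contra h
        exact hβ (if_neg h)
      rw [← h1]
      refine ⟨fun i => (β i).2, ?_⟩
      have h2 : ∑ i, (e β) i ≤ ∑ _i : Fin n, p := Finset.sum_le_sum fun i _ => (β i).2.le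
      rw [Finset.sum_const, Finset.card_univ, Fintype.card_fin, smul_eq_mul] at h2
      omega
    have h0 := indep_low hx hx0 hli hxp (n * p) f hbox hf0
    have h1 := hcoeff (e α)
    rw [h0, MvPolynomial.coeff_zero, Finset.sum_eq_single α] at h1
    · rw [if_pos rfl] at h1
      exact h1.symm
    · intro β _ hβ
      rw [if_neg]
      intro h
      exact hβ (he _ _ h)
    · intro h
      exact absurd (Finset.mem_univ α) h
  have hspan : Submodule.span k (Set.range mon) = ⊤ := by
    rw [eq_top_iff]
    intro a _
    have ha : a ∈ Algebra.adjoin k (Set.range x) := by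
      rw [hgen]
      trivial
    have hP : ∀ f : MvPolynomial (Fin n) k, MvPolynomial.aeval x f ∈
        Submodule.span k (Set.range mon) := by
      intro f
      rw [← MvPolynomial.support_sum_monomial_coeff f, map_sum]
      refine Submodule.sum_mem _ fun s _ => ?_
      rw [MvPolynomial.aeval_monomial, ← Algebra.smul_def, Finsupp.prod_fintype _ _
        (fun i => pow_zero _)]
      exact Submodule.smul_mem _ _ (FStr_mon_mem x hxp s)
    rw [Algebra.adjoin_range_eq_range_aeval] at ha
    obtain ⟨f, rfl⟩ := ha
    exact hP f
  refine ⟨⟨x, hx0, hxp, Module.Basis.mk hmli hspan.ge, fun α => ?_⟩, rfl⟩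
  rw [Module.Basis.mk_apply]

end

end Pool.Agent.Helper76.FA
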