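import Pool.Agent.Helper90.FC.VMod
import Pool.Agent.Helper49.FA.RedQ

/-!
# Project FA: the Bockstein classes of a truncated polynomial algebra, any exponent `q > 1`

`F` has coordinates `c : Coords k q F n`, where `q > 1` is any exponent (for instance a power of the
characteristic). For each `i` there are `F`-modules `W = k[t]/(t^q)` (with `x_i` acting as `t` and
`x_j` as `0` for `j ≠ i`), `W' = t W`, and exact sequences `0 → k → W → W' → 0` and
`0 → W' → W → k → 0`. The composite of the two extension classes is the class of the cocycle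
`bock i`. The proof is the one of `Pool.Agent.Helper90.FC.VMod`, which never uses that the exponent
is prime.
-/

set_option linter.unusedSectionVars false
set_option autoImplicit false

open CategoryTheory CategoryTheory.Abelian CategoryTheory.Limits
open scoped ModuleCat TensorProduct
open Pool.Agent.Helper59.FG Pool.Agent.Helper90.FC Pool.Agent.Helper49.FA

namespace Pool.Agent.Helper76.FA

universe u

private theorem pos_fact (p : ℕ) [h : Fact (1 < p)] : 0 < p := lt_trans one_pos h.out

private theorem one_le_fact (p : ℕ) [h : Fact (1 < p)] : 1 ≤ p := h.out.le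

section

variable {k : Type u} [Field k] {F : Type u} [CommRing F] [HopfAlgebra k F] [Module.Finite k F]

variable {p : ℕ} {n : ℕ}

theorem QMod_ker [Fact (1 < p)] (c : Coords k p F n) (i : Fin n)
    (g : MvPolynomial (Fin n) k) (hg : c.ev g = 0) : VMod_mk p (VMod_sig i g) = 0 := by
  rw [VMod_mk_eq_zero, Polynomial.X_pow_dvd_iff]
  intro m hm
  rw [VMod_coeff_sig]
  apply (q_ev_eq_zero (pos_fact p) c g).1 hg
  intro j
  by_cases hj : j = i
  · rw [hj, Finsupp.single_eq_same]
    exact hm
  · rw [Finsupp.single_apply, if_neg (Ne.symm hj)]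
    exact (pos_fact p)

theorem QMod_q0_ev [Fact (1 < p)] (c : Coords k p F n) (i : Fin n)
    (g : MvPolynomial (Fin n) k) : VMod_q0 c i (c.ev g) = VMod_mk p (VMod_sig i g) := by
  rw [VMod_q0_apply, ← sub_eq_zero, ← map_sub, ← map_sub]
  apply QMod_ker c i
  rw [map_sub, q_ev_red c, sub_self]

/-- The homomorphism `F → k[t]/(t^p)`. -/
noncomputable def QMod_q [Fact (1 < p)] (c : Coords k p F n) (i : Fin n) : F →ₐ[k] VModR k p :=
  AlgHom.ofLinearMap (VMod_q0 c i)
    (by
      have h := QMod_q0_ev c i 1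
      rw [map_one c.ev, map_one (VMod_sig i), map_one (VMod_mk p)] at h
      exact h)
    (by
      intro f f'
      have h := QMod_q0_ev c i (c.red f * c.red f')
      rw [map_mul c.ev, q_ev_red c, q_ev_red c, map_mul (VMod_sig i), map_mul (VMod_mk p)] at h
      exact h)

theorem QMod_q_apply [Fact (1 < p)] (c : Coords k p F n) (i : Fin n) (f : F) :
    QMod_q c i f = VMod_mk p (VMod_sig i (c.red f)) := rfl

theorem QMod_q_x [Fact (1 < p)] (c : Coords k p F n) (i : Fin n) :
    QMod_q c i (c.x i) = VMod_mk p Polynomial.X := by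
  have h := QMod_q0_ev c i (MvPolynomial.X i)
  rw [VMod_sig_X] at h
  have h2 : c.ev (MvPolynomial.X i) = c.x i := by simp [Coords.ev]
  rw [h2] at h
  exact h

theorem QMod_q_x' [Fact (1 < p)] (c : Coords k p F n) (i j : Fin n) (hj : j ≠ i) :
    QMod_q c i (c.x j) = 0 := by
  have h := QMod_q0_ev c i (MvPolynomial.X j)
  rw [VMod_sig_X' i j hj, map_zero] at h
  have h2 : c.ev (MvPolynomial.X j) = c.x j := by simp [Coords.ev]
  rw [h2] at h
  exact h

/-- The module `W`. -/
noncomputable def QModW [Fact (1 < p)] (c : Coords k p F n) (i : Fin n) : ModuleCat.{u} F :=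
  @ModuleCat.of F _ (VModR k p) _ (Module.compHom _ (QMod_q c i).toRingHom)

/-- An element of `k[t]/(t^p)` as an element of `W`. -/
def QMod_to [Fact (1 < p)] (c : Coords k p F n) (i : Fin n) (w : VModR k p) : QModW c i := w

/-- An element of `W` as an element of `k[t]/(t^p)`. -/
def QMod_fr [Fact (1 < p)] (c : Coords k p F n) (i : Fin n) (w : QModW c i) : VModR k p := w

variable [Fact (1 < p)] (c : Coords k p F n) (i : Fin n)

theorem QMod_fr_add (w w' : QModW c i) :
    QMod_fr c i (w + w') = QMod_fr c i w + QMod_fr c i w' := rfl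

theorem QMod_fr_sub (w w' : QModW c i) :
    QMod_fr c i (w - w') = QMod_fr c i w - QMod_fr c i w' := rfl

theorem QMod_fr_zero : QMod_fr c i 0 = 0 := rfl

theorem QMod_fr_smul (f : F) (w : QModW c i) :
    QMod_fr c i (f • w) = QMod_q c i f * QMod_fr c i w := rfl

theorem QMod_fr_ksmul (a : k) (w : QModW c i) :
    QMod_fr c i (a • w) = a • QMod_fr c i w := by
  change QMod_q c i (algebraMap k F a) * QMod_fr c i w = _
  rw [AlgHom.commutes, Algebra.smul_def]

theorem QMod_fr_inj {w w' : QModW c i} (h : QMod_fr c i w = QMod_fr c i w') : w = w' := h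

theorem QMod_fr_to (w : VModR k p) : QMod_fr c i (QMod_to c i w) = w := rfl

theorem QMod_to_fr (w : QModW c i) : QMod_to c i (QMod_fr c i w) = w := rfl

/-- `W` is `k[t]/(t^p)`, `k`-linearly. -/
noncomputable def QMod_toL : VModR k p ≃ₗ[k] QModW c i :=
  LinearEquiv.symm
    { toFun := QMod_fr c i
      invFun := QMod_to c i
      map_add' := QMod_fr_add c i
      map_smul' := fun a w => QMod_fr_ksmul c i a w
      left_inv := fun _ => rfl
      right_inv := fun _ => rfl }

theorem QMod_toL_apply (w : VModR k p) : QMod_toL c i w = QMod_to c i w := rfl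

/-- The basis of `W`. -/
noncomputable def QMod_basis : Module.Basis (Fin p) k (QModW c i) :=
  (((AdjoinRoot.powerBasis' (Polynomial.monic_X_pow (R := k) p)).basis.reindex
    (finCongr (Polynomial.natDegree_X_pow p))).map (QMod_toL c i))

theorem QMod_basis_apply (a : Fin p) :
    QMod_basis c i a = QMod_to c i (VMod_mk p (Polynomial.X ^ (a : ℕ))) := by
  rw [QMod_basis, Module.Basis.map_apply, Module.Basis.reindex_apply, QMod_toL_apply]
  congr 1
  rw [PowerBasis.coe_basis, map_pow]
  rfl

/-- The structure of `W`. -/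
noncomputable def QMod_isW : IsW p c i (QModW c i) where
  e a := QMod_to c i (VMod_mk p (Polynomial.X ^ a))
  zero a ha := by
    apply QMod_fr_inj
    rw [QMod_fr_to, QMod_fr_zero, VMod_mk_eq_zero]
    exact pow_dvd_pow _ ha
  basis := QMod_basis c i
  basis_eq a := QMod_basis_apply c i a
  act a := by
    apply QMod_fr_inj
    rw [QMod_fr_smul, QMod_fr_to, QMod_fr_to, QMod_q_x, ← map_mul, pow_succ']
  act' j hj a := by
    apply QMod_fr_inj
    rw [QMod_fr_smul, QMod_q_x' c i j hj, zero_mul, QMod_fr_zero]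

theorem QMod_to_add (w w' : VModR k p) :
    QMod_to c i (w + w') = QMod_to c i w + QMod_to c i w' := rfl

theorem QMod_to_sub (w w' : VModR k p) :
    QMod_to c i (w - w') = QMod_to c i w - QMod_to c i w' := rfl

theorem QMod_smul_to (f : F) (w : VModR k p) :
    f • QMod_to c i w = QMod_to c i (QMod_q c i f * w) := rfl

theorem QMod_ksmul_to (a : k) (w : VModR k p) :
    a • QMod_to c i w = QMod_to c i (a • w) := ((QMod_toL c i).map_smul a w).symm

/-- The decomposition of the image of an element of `F`. -/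
theorem QMod_q_eq (f : F) : QMod_q c i f =
    VMod_mk p Polynomial.X * VMod_mk p (VMod_sig i (c.red f)).divX +
      algebraMap k (VModR k p) (Coalgebra.counit (R := k) f) := by
  have h := Polynomial.divX_mul_X_add (VMod_sig i (c.red f))
  rw [← VMod_const, q_const_red (pos_fact p) c] at h
  rw [QMod_q_apply, ← map_mul]
  conv_lhs => rw [← h]
  rw [map_add, mul_comm]
  rfl

/-- Multiplication by `t`. -/
noncomputable def QMod_t : QModW c i →ₗ[F] QModW c i := LinearMap.lsmul F (QModW c i) (c.x i)

theorem QMod_t_apply (w : QModW c i) : QMod_t c i w = c.x i • w := rfl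

/-- The embedding of the trivial module. -/
noncomputable def QMod_i1 : trivObj k F ⟶ QModW c i :=
  ConcreteCategory.ofHom (C := ModuleCat.{u} F) (X := trivObj k F) (Y := QModW c i)
    { toFun := fun a => QMod_to c i ((show k from a) • VMod_mk p (Polynomial.X ^ (p - 1)))
      map_add' := fun a b => by
        rw [← QMod_to_add]
        congr 1
        exact add_smul (show k from a) (show k from b) _
      map_smul' := fun f a => by
        rw [RingHom.id_apply, QMod_smul_to]
        congr 1
        change (Coalgebra.counit (R := k) f * (show k from a)) • _ = _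
        rw [QMod_q_eq, add_mul, mul_smul_comm, mul_right_comm, ← map_mul, ← pow_succ',
          Nat.sub_add_cancel (one_le_fact p)]
        have h : VMod_mk (k := k) p (Polynomial.X ^ p) = 0 := VMod_mk_eq_zero.2 dvd_rfl
        rw [h, zero_mul, smul_zero, zero_add, Algebra.algebraMap_eq_smul_one, smul_mul_assoc,
          one_mul, smul_smul] }

theorem QMod_i1_apply (a : k) : (QMod_i1 c i).hom (show trivObj k F from a) =
    QMod_to c i (a • VMod_mk p (Polynomial.X ^ (p - 1))) := rfl

/-- The evaluation at `t = 0`. -/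
noncomputable def QMod_e0 : VModR k p →ₐ[k] k :=
  AdjoinRoot.liftAlgHom (Polynomial.X ^ p : Polynomial k) (AlgHom.id k k) 0 (by
    have hp : p ≠ 0 := (pos_fact p).ne'
    simp [hp])

theorem QMod_e0_mk (g : Polynomial k) : QMod_e0 (VMod_mk p g) = g.coeff 0 := by
  rw [Polynomial.coeff_zero_eq_eval_zero]
  rfl

/-- The projection to the trivial module. -/
noncomputable def QMod_p2 : QModW c i ⟶ trivObj k F :=
  ConcreteCategory.ofHom (C := ModuleCat.{u} F) (X := QModW c i) (Y := trivObj k F)
    { toFun := fun w => (show trivObj k F from (QMod_e0 (QMod_fr c i w) : k))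
      map_add' := fun w w' => map_add (QMod_e0 (k := k) (p := p)) (QMod_fr c i w) (QMod_fr c i w')
      map_smul' := fun f w => by
        change QMod_e0 (QMod_fr c i (f • w)) = Coalgebra.counit (R := k) f *
          QMod_e0 (QMod_fr c i w)
        rw [QMod_fr_smul, map_mul, QMod_q_apply, QMod_e0_mk, ← VMod_const,
          q_const_red (pos_fact p) c] }

theorem QMod_p2_apply (w : QModW c i) : (QMod_p2 c i).hom w =
    (show trivObj k F from (QMod_e0 (QMod_fr c i w) : k)) := rfl

/-- The module `W' = t W`. -/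
noncomputable def QModW' : ModuleCat.{u} F := ModuleCat.of F (LinearMap.range (QMod_t c i))

/-- Multiplication by `t` as a morphism to `W'`. -/
noncomputable def QMod_p1 : QModW c i ⟶ QModW' c i :=
  ConcreteCategory.ofHom (C := ModuleCat.{u} F) (X := QModW c i) (Y := QModW' c i)
    (LinearMap.rangeRestrict (QMod_t c i))

/-- The inclusion of `W'`. -/
noncomputable def QMod_i2 : QModW' c i ⟶ QModW c i :=
  ConcreteCategory.ofHom (C := ModuleCat.{u} F) (X := QModW' c i) (Y := QModW c i)
    (LinearMap.range (QMod_t c i)).subtype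

theorem QMod_i2_p1 (w : QModW c i) : (QMod_i2 c i).hom ((QMod_p1 c i).hom w) = c.x i • w := rfl

theorem QMod_i2_inj : Function.Injective (QMod_i2 c i).hom := Subtype.val_injective

theorem QMod_ker_t (w : QModW c i) : c.x i • w = 0 ↔
    ∃ a : k, QMod_to c i (a • VMod_mk p (Polynomial.X ^ (p - 1))) = w := by
  have hp : p - 1 + 1 = p := Nat.sub_add_cancel (one_le_fact p)
  obtain ⟨g, hg⟩ := VMod_mk_surj (QMod_fr c i w)
  constructor
  · intro h
    have h1 : QMod_fr c i (c.x i • w) = 0 := by rw [h, QMod_fr_zero]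
    rw [QMod_fr_smul, QMod_q_x, ← hg, ← map_mul, VMod_mk_eq_zero, ← hp, pow_succ'] at h1
    obtain ⟨s, hs⟩ := (mul_dvd_mul_iff_left Polynomial.X_ne_zero).1 h1
    refine ⟨s.coeff 0, ?_⟩
    apply QMod_fr_inj
    rw [QMod_fr_to, ← hg, ← map_smul, ← sub_eq_zero, ← map_sub, VMod_mk_eq_zero]
    refine ⟨-s.divX, ?_⟩
    have h2 := Polynomial.divX_mul_X_add s
    have h3 : (Polynomial.X ^ p : Polynomial k) =
        Polynomial.X ^ (p - 1) * Polynomial.X := by rw [← pow_succ, hp]
    rw [hs, h3, Polynomial.smul_eq_C_mul]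
    linear_combination (Polynomial.X ^ (p - 1)) * h2
  · rintro ⟨a, rfl⟩
    apply QMod_fr_inj
    rw [QMod_fr_smul, QMod_q_x, QMod_fr_to, QMod_fr_zero, mul_smul_comm, ← map_mul, ← pow_succ',
      hp, ← map_smul, VMod_mk_eq_zero, Polynomial.smul_eq_C_mul]
    exact dvd_mul_left _ _

theorem QMod_i1_inj : Function.Injective (QMod_i1 c i).hom := by
  intro a b h
  have h1 : QMod_fr c i ((QMod_i1 c i).hom a) = QMod_fr c i ((QMod_i1 c i).hom b) := by rw [h]
  have h2 : (show k from a) • VMod_mk (k := k) p (Polynomial.X ^ (p - 1)) =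
    (show k from b) • VMod_mk (k := k) p (Polynomial.X ^ (p - 1)) := h1
  rw [← sub_eq_zero, ← sub_smul, ← map_smul, VMod_mk_eq_zero, Polynomial.X_pow_dvd_iff] at h2
  have h3 := h2 (p - 1) (Nat.sub_lt (pos_fact p) one_pos)
  rw [Polynomial.coeff_smul, Polynomial.coeff_X_pow_self, smul_eq_mul, mul_one, sub_eq_zero] at h3
  exact h3

theorem QMod_w1 : QMod_i1 c i ≫ QMod_p1 c i = 0 := by
  ext a
  apply QMod_i2_inj
  exact (QMod_ker_t c i _).2 ⟨(show k from a), rfl⟩

theorem QMod_s1 : (ShortComplex.mk (QMod_i1 c i) (QMod_p1 c i) (QMod_w1 c i)).ShortExact := by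
  refine ModuleCat.shortComplex_shortExact _ ?_ (QMod_i1_inj c i) ?_
  · intro w
    constructor
    · intro h
      have h1 : (QMod_i2 c i).hom ((QMod_p1 c i).hom w) = 0 := by
        have h2 : (QMod_p1 c i).hom w = 0 := h
        rw [h2, map_zero]
      exact (QMod_ker_t c i w).1 h1
    · rintro ⟨a, rfl⟩
      apply QMod_i2_inj
      exact (QMod_ker_t c i _).2 ⟨(show k from a), rfl⟩
  · exact LinearMap.surjective_rangeRestrict _

theorem QMod_w2 : QMod_i2 c i ≫ QMod_p2 c i = 0 := by
  ext a
  obtain ⟨_, w, rfl⟩ := a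
  change QMod_e0 (QMod_fr c i (c.x i • w)) = (0 : k)
  rw [QMod_fr_smul, QMod_q_x, map_mul, QMod_e0_mk, Polynomial.coeff_X_zero, zero_mul]

theorem QMod_s2 : (ShortComplex.mk (QMod_i2 c i) (QMod_p2 c i) (QMod_w2 c i)).ShortExact := by
  refine ModuleCat.shortComplex_shortExact _ ?_ (QMod_i2_inj c i) ?_
  · intro w
    constructor
    · intro h
      have h1 : QMod_e0 (QMod_fr c i w) = (0 : k) := h
      obtain ⟨g, hg⟩ := VMod_mk_surj (QMod_fr c i w)
      rw [← hg, QMod_e0_mk] at h1
      obtain ⟨s, hs⟩ := Polynomial.X_dvd_iff.2 h1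
      refine ⟨(QMod_p1 c i).hom (QMod_to c i (VMod_mk p s)), ?_⟩
      change c.x i • QMod_to c i (VMod_mk p s) = w
      apply QMod_fr_inj
      rw [QMod_fr_smul, QMod_fr_to, QMod_q_x, ← map_mul, ← hs, hg]
    · rintro ⟨⟨_, w, rfl⟩, rfl⟩
      change QMod_e0 (QMod_fr c i (c.x i • w)) = (0 : k)
      rw [QMod_fr_smul, QMod_q_x, map_mul, QMod_e0_mk, Polynomial.coeff_X_zero, zero_mul]
  · intro a
    refine ⟨QMod_to c i (VMod_mk p (Polynomial.C (show k from a))), ?_⟩
    change QMod_e0 (VMod_mk p (Polynomial.C (show k from a))) = (show k from a)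
    rw [QMod_e0_mk, Polynomial.coeff_C_zero]

theorem QMod_finW' : Module.Finite F (QModW' c i) := by
  have h1 : Module.Finite k (QModW c i) := Module.Finite.of_basis (QMod_basis c i)
  have h2 : Module.Finite F (QModW c i) := Module.Finite.of_restrictScalars_finite k F _
  exact Module.Finite.range (QMod_t c i)

/-- The cochain `h`: the coefficient of `t` in the image of an element. -/
noncomputable def QMod_h : F →ₗ[k] QModW c i :=
  (QMod_toL c i).toLinearMap ∘ₗ
    { toFun := fun f => VMod_mk p (VMod_sig i (c.red f)).divX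
      map_add' := fun f f' => by rw [map_add, map_add, Polynomial.divX_add, map_add]
      map_smul' := fun a f => by
        rw [map_smul, map_smul, Polynomial.smul_eq_C_mul, Polynomial.divX_C_mul,
          ← Polynomial.smul_eq_C_mul, map_smul, RingHom.id_apply] }

theorem QMod_h_apply (f : F) :
    QMod_h c i f = QMod_to c i (VMod_mk p (VMod_sig i (c.red f)).divX) := rfl

/-- The coboundary of `e_0`. -/
theorem QMod_d0 (f : F) : f • QMod_to c i 1 - Coalgebra.counit (R := k) f • QMod_to c i 1 =
    c.x i • QMod_h c i f := by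
  rw [QMod_smul_to, QMod_ksmul_to, QMod_h_apply, QMod_smul_to, QMod_q_x, ← QMod_to_sub]
  congr 1
  rw [QMod_q_eq c i f, mul_one, Algebra.algebraMap_eq_smul_one, add_sub_cancel_right]

/-- The coboundary of `h`. -/
theorem QMod_d1 (f g : F) :
    f • QMod_h c i g - QMod_h c i (f * g) + Coalgebra.counit (R := k) g • QMod_h c i f =
      QMod_to c i (c.bock i f g • VMod_mk p (Polynomial.X ^ (p - 1))) := by
  have hp : p - 1 + 1 = p := Nat.sub_add_cancel (one_le_fact p)
  rw [QMod_h_apply, QMod_h_apply, QMod_h_apply, QMod_smul_to, QMod_ksmul_to, ← QMod_to_sub,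
    ← QMod_to_add]
  congr 1
  have h1 : VMod_mk (k := k) p (VMod_sig i (c.red f * c.red g) - VMod_sig i (c.red (f * g))) =
      0 := by
    rw [← map_sub]
    apply QMod_ker c i
    rw [map_sub, map_mul, q_ev_red c, q_ev_red c, q_ev_red c, sub_self]
  rw [VMod_mk_eq_zero] at h1
  obtain ⟨s, hs⟩ := h1
  rw [map_mul] at hs
  have h2 := VMod_divX_mul (VMod_sig i (c.red f)) (VMod_sig i (c.red g))
  have h3 : VMod_sig i (c.red f) * VMod_sig i (c.red g) =
      VMod_sig i (c.red (f * g)) + Polynomial.X * (Polynomial.X ^ (p - 1) * s) := by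
    rw [← mul_assoc, ← pow_succ', hp, ← hs]
    ring
  rw [h3, Polynomial.divX_add, VMod_divX_X_mul, ← VMod_const i (c.red g),
    q_const_red (pos_fact p) c] at h2
  have h4 : c.bock i f g = s.coeff 0 := by
    rw [Coords.bock, VMod_lam, map_mul, h3, Polynomial.coeff_add, ← VMod_lam, q_lam_red c, zero_add,
      ← mul_assoc, ← pow_succ', hp, Polynomial.coeff_X_pow_mul', if_pos le_rfl, Nat.sub_self]
  rw [h4, QMod_q_apply, ← map_mul, ← map_smul, ← map_smul, ← map_sub, ← map_add, ← sub_eq_zero,
    ← map_sub, VMod_mk_eq_zero]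
  refine ⟨s.divX, ?_⟩
  have h5 := Polynomial.divX_mul_X_add s
  have h6 : (Polynomial.X ^ p : Polynomial k) =
      Polynomial.X ^ (p - 1) * Polynomial.X := by rw [← pow_succ, hp]
  rw [Polynomial.smul_eq_C_mul, Polynomial.smul_eq_C_mul, h6]
  linear_combination (-1 : Polynomial k) * h2 + (- Polynomial.X ^ (p - 1)) * h5

/-- The two extensions. -/
noncomputable def QMod_data : VData p c i where
  W := QModW c i
  W' := QModW' c i
  isW := QMod_isW c i
  finW' := QMod_finW' c i
  i₁ := QMod_i1 c i
  p₁ := QMod_p1 c i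
  w₁ := QMod_w1 c i
  s₁ := QMod_s1 c i
  i₂ := QMod_i2 c i
  p₂ := QMod_p2 c i
  w₂ := QMod_w2 c i
  s₂ := QMod_s2 c i

theorem QMod_cls (w : TA k (HD k F)) (hd : dd k (HD k F) w = 0)
    (hw : ∀ f g : F, val2 (evn k 2 w) f g = c.bock i f g) :
    clsT k 2 w hd = (QMod_data c i).cl := by
  have hx1 : dC k 1 (QModW c i) (show Cn k 1 (QModW c i) from mkI k (QMod_h c i)) =
      Cmap k 2 (kl k (QMod_i1 c i)) (evn k 2 w) := by
    refine IM_ext k (M := IM k (QModW c i)) fun b₂ => IM_ext k (M := QModW c i) fun b₁ => ?_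
    have h := QMod_d1 c i b₁ b₂
    rw [← hw] at h
    refine Eq.trans ?_ h
    change b₁ • QMod_h c i b₂ - (QMod_h c i (b₁ * b₂) -
      fn k (Coalgebra.counit (R := k) b₂ • (mkI k (QMod_h c i) : IM k (QModW c i))) b₁) = _
    rw [fn_ksmul]
    abel
  obtain ⟨hxz1, hz1, he1⟩ := cls_delta k 1 (QMod_i1 c i) (QMod_p1 c i) (QMod_w1 c i)
    (QMod_s1 c i) _ _ hx1
  have hx2 : dC k 0 (QModW c i) (show Cn k 0 (QModW c i) from QMod_to c i 1) =
      Cmap k 1 (kl k (QMod_i2 c i)) (Cmap k 1 (kl k (QMod_p1 c i))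
        (show Cn k 1 (QModW c i) from mkI k (QMod_h c i))) := by
    refine IM_ext k (M := QModW c i) fun b => ?_
    exact QMod_d0 c i b
  obtain ⟨hxz2, hz2, he2⟩ := cls_delta k 0 (QMod_i2 c i) (QMod_p2 c i) (QMod_w2 c i)
    (QMod_s2 c i) _ _ hx2
  have h0 : cls k 0 (trivObj k F) ⟨Cmap k 0 (kl k (QMod_p2 c i))
      (show Cn k 0 (QModW c i) from QMod_to c i 1), hz2⟩ = Ext.mk₀ (𝟙 _) := by
    rw [cls_zero]
    congr 1
    ext a
    change Coalgebra.counit (R := k) (algebraMap k F (show k from a)) *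
      QMod_e0 (QMod_fr c i (QMod_to c i 1)) = (show k from a)
    rw [QMod_fr_to, map_one, mul_one, Bialgebra.counit_algebraMap]
  rw [h0, Ext.mk₀_id_comp] at he2
  have h3 : clsT k 2 w hd = cls k 2 (trivObj k F) ⟨evn k 2 w, hxz1⟩ := rfl
  rw [h3, he1]
  have h4 : cls k 1 (QModW' c i) ⟨Cmap k 1 (kl k (QMod_p1 c i))
      (show Cn k 1 (QModW c i) from mkI k (QMod_h c i)), hz1⟩ = (QMod_s2 c i).extClass := he2
  rw [h4]
  rfl

end

section

variable {k : Type u} [Field k] {F : Type u} [CommRing F] [HopfAlgebra k F] [Module.Finite k F]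

/-- The two extensions of any coordinate, for any exponent `q > 1`: the composite of their classes
is the class of the cocycle `bock i`. -/
theorem exists_vdata_q (q : ℕ) (hq : 1 < q) {n : ℕ} (c : Coords k q F n)
    (i : Fin n) : ∃ D : VData q c i, ∀ (w : TA k (HD k F)) (_ : w ∈ Tn k (HD k F) 2)
      (hd : dd k (HD k F) w = 0) (_ : ∀ f g : F, val2 (evn k 2 w) f g = c.bock i f g),
      clsT k 2 w hd = D.cl := by
  have : Fact (1 < q) := ⟨hq⟩
  exact ⟨QMod_data c i, fun w _ hd hw => QMod_cls c i w hd hw⟩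

end

end Pool.Agent.Helper76.FA
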