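import Pool.Agent.Helper76.FA.Act

/-!
# The lifted action of an ad-stable space of generators with commuting matrix coefficients

`F → B` is an injective homomorphism of Hopf algebras, `F` is commutative of dimension `p^n` and
generated by elements `x_j` of the augmentation ideal with `x_j^p = 0`, whose images span an ad-stable
subspace of `B`: `b ▷ ι(x_j) = ∑ m_ij(b) ι(x_i)`. If the `m_ij` commute in the dual algebra of `B` and
`m_ij^p = δ_ij`, then the adjoint action lifts to an action of `B` on the polynomial ring.
-/

set_option linter.unusedSectionVars false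
set_option autoImplicit false

open scoped TensorProduct IsMulCommutative
open WithConv

namespace Pool.Agent.Helper76.FA.Lin

open Pool.Agent.Helper90.UN Pool.Agent.Helper90.FC Pool.Agent.Helper10.FA Pool.Agent.Helper76.FA

universe u

section

variable {k : Type u} [Field k] {B : Type u} [Ring B] [HopfAlgebra k B]

variable {n : ℕ} {m : Fin n → Fin n → (B →ₗ[k] k)}

/-- The matrix coefficients commute. -/
def Comm (m : Fin n → Fin n → (B →ₗ[k] k)) : Prop :=
  ∀ i j i' j', toConv (m i j) * toConv (m i' j') = toConv (m i' j') * toConv (m i j)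

/-- the maps `b ↦ m_ij(b) q` -/
def gens (m : Fin n → Fin n → (B →ₗ[k] k)) : Set (WithConv (B →ₗ[k] MvPolynomial (Fin n) k)) :=
  {a | ∃ (i j : Fin n) (q : MvPolynomial (Fin n) k), a = toConv ((m i j).smulRight q)}

theorem gens_comm (hc : Comm m) : ∀ a ∈ gens m, ∀ b ∈ gens m, a * b = b * a := by
  rintro _ ⟨i, j, q, rfl⟩ _ ⟨i', j', r, rfl⟩
  rw [smulRight_mul, smulRight_mul, hc, mul_comm q]

/-- the algebra generated by them -/
noncomputable abbrev Zs (m : Fin n → Fin n → (B →ₗ[k] k)) :
    Subalgebra k (WithConv (B →ₗ[k] MvPolynomial (Fin n) k)) := Algebra.adjoin k (gens m)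

/-- it is commutative -/
theorem crZ (hc : Comm m) : IsMulCommutative (Zs m) :=
  Algebra.isMulCommutative_adjoin k (gens_comm hc)

theorem smulRight_mem (m : Fin n → Fin n → (B →ₗ[k] k)) (i j : Fin n)
    (q : MvPolynomial (Fin n) k) : toConv ((m i j).smulRight q) ∈ Zs m :=
  Algebra.subset_adjoin ⟨i, j, q, rfl⟩

theorem mu_mem (m : Fin n → Fin n → (B →ₗ[k] k)) (j : Fin n) : mu m j ∈ Zs m :=
  Subalgebra.sum_mem _ fun i _ => smulRight_mem m i j _

/-- The homomorphism from the polynomial ring to the convolution algebra with `X_j ↦ μ_j`. -/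
noncomputable def Phi (hc : Comm m) :
    MvPolynomial (Fin n) k →ₐ[k] WithConv (B →ₗ[k] MvPolynomial (Fin n) k) :=
  haveI := crZ hc
  (Zs m).val.comp (MvPolynomial.aeval fun j => (⟨mu m j, mu_mem m j⟩ : Zs m))

theorem Phi_X (hc : Comm m) (j : Fin n) : Phi hc (MvPolynomial.X j) = mu m j := by
  have := crZ hc
  rw [Phi, AlgHom.comp_apply, MvPolynomial.aeval_X]
  rfl

/-- The action. -/
noncomputable def lact (hc : Comm m) :
    B →ₗ[k] MvPolynomial (Fin n) k →ₗ[k] MvPolynomial (Fin n) k :=
  LinearMap.flip ((WithConv.linearEquiv k (B →ₗ[k] MvPolynomial (Fin n) k)).toLinearMap ∘ₗ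
    (Phi hc).toLinearMap)

theorem lact_apply (hc : Comm m) (b : B) (f : MvPolynomial (Fin n) k) :
    lact hc b f = (Phi hc f).ofConv b := rfl

theorem lact_flip (hc : Comm m) (f : MvPolynomial (Fin n) k) :
    (lact hc).flip f = (Phi hc f).ofConv := rfl

theorem lact_X (hc : Comm m) (b : B) (j : Fin n) :
    lact hc b (MvPolynomial.X j) = ∑ i, m i j b • MvPolynomial.X i := by
  rw [lact_apply, Phi_X, mu_apply]

theorem lact_C (hc : Comm m) (b : B) (a : k) :
    lact hc b (MvPolynomial.C a) = Coalgebra.counit (R := k) b • MvPolynomial.C a := by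
  have h1 : Phi hc (MvPolynomial.C a) = algebraMap k _ a := (Phi hc).commutes a
  have h2 : (algebraMap k (WithConv (B →ₗ[k] MvPolynomial (Fin n) k)) a).ofConv b =
      a • algebraMap k (MvPolynomial (Fin n) k) (Coalgebra.counit (R := k) b) := rfl
  rw [lact_apply, h1, h2, MvPolynomial.algebraMap_eq, MvPolynomial.smul_eq_C_mul,
    MvPolynomial.smul_eq_C_mul, mul_comm]

theorem lact_one (hc : Comm m) (b : B) :
    lact hc b 1 = Coalgebra.counit (R := k) b • (1 : MvPolynomial (Fin n) k) := by
  have h := lact_C hc b 1
  rw [MvPolynomial.C_1] at h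
  exact h

theorem lact_mul (hc : Comm m) (b : B) (f g : MvPolynomial (Fin n) k) :
    lact hc b (f * g) = LinearMap.mul' k (MvPolynomial (Fin n) k)
      (TensorProduct.map ((lact hc).flip f) ((lact hc).flip g) (Coalgebra.comul b)) := by
  rw [lact_apply, map_mul]
  rfl

theorem lact_one_act (hc : Comm m) (h1 : ∀ i j, m i j 1 = if i = j then 1 else 0)
    (f : MvPolynomial (Fin n) k) : lact hc 1 f = f := by
  induction f using MvPolynomial.induction_on with
  | C a => rw [lact_C, Bialgebra.counit_one, one_smul]
  | add f g hf hg => rw [map_add, hf, hg]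
  | mul_X f j hf =>
    rw [lact_mul, Bialgebra.comul_one, Algebra.TensorProduct.one_def, TensorProduct.map_tmul,
      LinearMap.mul'_apply, LinearMap.flip_apply, LinearMap.flip_apply, hf, lact_X]
    congr 1
    simp [h1]

theorem lact_mul_act (hc : Comm m)
    (h2 : ∀ (b b' : B) (i j : Fin n), m i j (b * b') = ∑ l, m i l b * m l j b')
    (f : MvPolynomial (Fin n) k) :
    ∀ b b' : B, lact hc (b * b') f = lact hc b (lact hc b' f) := by
  -- products
  have hstep : ∀ f g : MvPolynomial (Fin n) k,
      (∀ b b' : B, lact hc (b * b') f = lact hc b (lact hc b' f)) →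
      (∀ b b' : B, lact hc (b * b') g = lact hc b (lact hc b' g)) →
      ∀ b b' : B, lact hc (b * b') (f * g) = lact hc b (lact hc b' (f * g)) := by
    intro f g hf hg b b'
    have e1 : ∀ (c d : B) (s : B ⊗[k] B), LinearMap.mul' k (MvPolynomial (Fin n) k)
        (TensorProduct.map ((lact hc).flip f) ((lact hc).flip g) (s * (c ⊗ₜ[k] d))) =
        LinearMap.mul' k (MvPolynomial (Fin n) k) (TensorProduct.map
          ((lact hc).flip (lact hc c f)) ((lact hc).flip (lact hc d g)) s) := by
      intro c d s
      induction s using TensorProduct.induction_on with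
      | zero => simp
      | add s t hs ht => rw [add_mul, map_add, map_add, hs, ht, map_add, map_add]
      | tmul u v =>
        rw [Algebra.TensorProduct.tmul_mul_tmul, TensorProduct.map_tmul, TensorProduct.map_tmul,
          LinearMap.mul'_apply, LinearMap.mul'_apply]
        simp only [LinearMap.flip_apply]
        rw [hf, hg]
    have e2 : ∀ t : B ⊗[k] B, LinearMap.mul' k (MvPolynomial (Fin n) k)
        (TensorProduct.map ((lact hc).flip f) ((lact hc).flip g) (Coalgebra.comul b * t)) =
        lact hc b (LinearMap.mul' k (MvPolynomial (Fin n) k)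
          (TensorProduct.map ((lact hc).flip f) ((lact hc).flip g) t)) := by
      intro t
      induction t using TensorProduct.induction_on with
      | zero => simp
      | add s t hs ht =>
        rw [mul_add, map_add, map_add, hs, ht, map_add, map_add, map_add]
      | tmul c d =>
        rw [e1, ← lact_mul, TensorProduct.map_tmul, LinearMap.mul'_apply]
        rfl
    rw [lact_mul, Bialgebra.comul_mul, e2, ← lact_mul]
  have hX : ∀ (j : Fin n) (b b' : B), lact hc (b * b') (MvPolynomial.X j) =
      lact hc b (lact hc b' (MvPolynomial.X j)) := by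
    intro j b b'
    rw [lact_X, lact_X, map_sum]
    simp only [map_smul, lact_X, h2, Finset.smul_sum, Finset.sum_smul]
    rw [Finset.sum_comm]
    refine Finset.sum_congr rfl fun i _ => Finset.sum_congr rfl fun l _ => ?_
    rw [smul_smul, mul_comm]
  induction f using MvPolynomial.induction_on with
  | C a =>
    intro b b'
    rw [lact_C, lact_C, map_smul, lact_C, Bialgebra.counit_mul, smul_smul, mul_comm]
  | add f g hf hg =>
    intro b b'
    rw [map_add, map_add, map_add, hf, hg]
  | mul_X f j hf => exact hstep f _ hf (hX j)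

theorem lact_cst (hc : Comm m) (f : MvPolynomial (Fin n) k) (b : B) :
    MvPolynomial.constantCoeff (lact hc b f) =
      Coalgebra.counit (R := k) b * MvPolynomial.constantCoeff f := by
  induction f using MvPolynomial.induction_on with
  | C a =>
    rw [lact_C, MvPolynomial.smul_eq_C_mul, map_mul, MvPolynomial.constantCoeff_C]
  | add f g hf hg => rw [map_add, map_add, map_add, hf, hg, mul_add]
  | mul_X f j hf =>
    have h : ∀ t : B ⊗[k] B, MvPolynomial.constantCoeff (LinearMap.mul' k
        (MvPolynomial (Fin n) k) (TensorProduct.map ((lact hc).flip f)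
          ((lact hc).flip (MvPolynomial.X j)) t)) = 0 := by
      intro t
      induction t using TensorProduct.induction_on with
      | zero => simp
      | add s t hs ht => rw [map_add, map_add, map_add, hs, ht, add_zero]
      | tmul u v =>
        rw [TensorProduct.map_tmul, LinearMap.mul'_apply, map_mul, LinearMap.flip_apply,
          LinearMap.flip_apply, lact_X, map_sum, Finset.sum_eq_zero, mul_zero]
        intro i _
        rw [MvPolynomial.smul_eq_C_mul, map_mul, MvPolynomial.constantCoeff_X, mul_zero]
    rw [lact_mul, h, map_mul, MvPolynomial.constantCoeff_X, mul_zero, mul_zero]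

/-- The commutation rule for a homomorphism from the polynomial ring to `B`, in the convolution
algebra. -/
theorem lact_comm (hc : Comm m) (θ : MvPolynomial (Fin n) k →ₐ[k] B)
    (hθ : ∀ b j, adj k b (θ (MvPolynomial.X j)) = ∑ i, m i j b • θ (MvPolynomial.X i))
    (f : MvPolynomial (Fin n) k) :
    toConv (θ.toLinearMap ∘ₗ (lact hc).flip f) * toConv (LinearMap.id : B →ₗ[k] B) =
      toConv (LinearMap.mulRight k (θ f)) := by
  induction f using MvPolynomial.induction_on with
  | C a =>
    ext b
    have h : ∀ t : B ⊗[k] B, LinearMap.mul' k B (TensorProduct.map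
        (θ.toLinearMap ∘ₗ (lact hc).flip (MvPolynomial.C a)) LinearMap.id t) =
        a • TensorProduct.lid k B (LinearMap.rTensor B (Coalgebra.counit (R := k)) t) := by
      intro t
      induction t using TensorProduct.induction_on with
      | zero => simp
      | add s t hs ht => simp only [map_add, hs, ht, smul_add]
      | tmul u v =>
        have h1 : θ (MvPolynomial.C a) = algebraMap k B a := θ.commutes a
        rw [TensorProduct.map_tmul, LinearMap.mul'_apply, LinearMap.comp_apply,
          LinearMap.flip_apply, lact_C, LinearMap.rTensor_tmul, TensorProduct.lid_tmul,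
          LinearMap.id_apply, map_smul, AlgHom.toLinearMap_apply, h1,
          Algebra.algebraMap_eq_smul_one, smul_mul_assoc, smul_mul_assoc, one_mul, smul_comm]
    have h1 : θ (MvPolynomial.C a) = algebraMap k B a := θ.commutes a
    change LinearMap.mul' k B (TensorProduct.map
        (θ.toLinearMap ∘ₗ (lact hc).flip (MvPolynomial.C a)) LinearMap.id
        (Coalgebra.comul (R := k) b)) = b * θ (MvPolynomial.C a)
    rw [h, Coalgebra.rTensor_counit_comul, TensorProduct.lid_tmul, one_smul, h1,
      Algebra.algebraMap_eq_smul_one, mul_smul_comm, mul_one]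
  | add f g hf hg =>
    have h1 : toConv (θ.toLinearMap ∘ₗ (lact hc).flip (f + g)) =
        toConv (θ.toLinearMap ∘ₗ (lact hc).flip f) +
          toConv (θ.toLinearMap ∘ₗ (lact hc).flip g) := by
      rw [map_add, LinearMap.comp_add]
      rfl
    rw [h1, add_mul, hf, hg]
    ext b
    change b * θ f + b * θ g = b * θ (f + g)
    rw [map_add, mul_add]
  | mul_X f j hf =>
    have h1 : toConv (θ.toLinearMap ∘ₗ (lact hc).flip (f * MvPolynomial.X j)) =
        toConv (θ.toLinearMap ∘ₗ (lact hc).flip f) *
          toConv (θ.toLinearMap ∘ₗ (lact hc).flip (MvPolynomial.X j)) := by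
      have h2 := LinearMap.algHom_comp_convMul_distrib θ (Phi hc f) (Phi hc (MvPolynomial.X j))
      rw [lact_flip, map_mul]
      exact congrArg toConv h2
    have h3 : toConv (θ.toLinearMap ∘ₗ (lact hc).flip (MvPolynomial.X j)) =
        toConv (adR k (θ (MvPolynomial.X j))) := by
      ext b
      change θ (lact hc b (MvPolynomial.X j)) = adj k b (θ (MvPolynomial.X j))
      rw [hθ, lact_X, map_sum]
      exact Finset.sum_congr rfl fun i _ => map_smul _ _ _
    rw [h1, mul_assoc, h3, adR_mul_id]
    ext b
    have h4 : ∀ t : B ⊗[k] B, LinearMap.mul' k B (TensorProduct.map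
        (θ.toLinearMap ∘ₗ (lact hc).flip f) (LinearMap.mulRight k (θ (MvPolynomial.X j))) t) =
        LinearMap.mul' k B (TensorProduct.map (θ.toLinearMap ∘ₗ (lact hc).flip f)
          LinearMap.id t) * θ (MvPolynomial.X j) := by
      intro t
      induction t using TensorProduct.induction_on with
      | zero => simp
      | add s t hs ht => simp only [map_add, hs, ht, add_mul]
      | tmul u v =>
        rw [TensorProduct.map_tmul, TensorProduct.map_tmul, LinearMap.mul'_apply,
          LinearMap.mul'_apply, LinearMap.mulRight_apply, LinearMap.id_apply, mul_assoc]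
    have h5 : LinearMap.mul' k B (TensorProduct.map (θ.toLinearMap ∘ₗ (lact hc).flip f)
        LinearMap.id (Coalgebra.comul (R := k) b)) = b * θ f :=
      LinearMap.congr_fun (congrArg ofConv hf) b
    change LinearMap.mul' k B (TensorProduct.map (θ.toLinearMap ∘ₗ (lact hc).flip f)
      (LinearMap.mulRight k (θ (MvPolynomial.X j))) (Coalgebra.comul (R := k) b)) =
      b * θ (f * MvPolynomial.X j)
    rw [h4, h5, map_mul, mul_assoc]

theorem lact_ker (hc : Comm m) (θ : MvPolynomial (Fin n) k →ₐ[k] B)
    (hθ : ∀ b j, adj k b (θ (MvPolynomial.X j)) = ∑ i, m i j b • θ (MvPolynomial.X i))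
    (f : MvPolynomial (Fin n) k) (hf : θ f = 0) (b : B) : θ (lact hc b f) = 0 := by
  have h1 := lact_comm hc θ hθ f
  have h2 : toConv (LinearMap.mulRight k (θ f)) = (0 : WithConv (B →ₗ[k] B)) := by
    ext b
    change b * θ f = 0
    rw [hf, mul_zero]
  rw [h2] at h1
  have h3 := congrArg (· * toConv (HopfAlgebra.antipode k (A := B))) h1
  simp only [mul_assoc, LinearMap.id_mul_antipode, mul_one, zero_mul] at h3
  exact LinearMap.congr_fun (congrArg ofConv h3) b

variable {p : ℕ} [Fact p.Prime] [CharP k p]

theorem Phi_X_pow (hc : Comm m)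
    (hmp : ∀ i j, toConv (m i j) ^ p = if i = j then 1 else 0) (l : Fin n) :
    Phi hc (MvPolynomial.X l ^ p) =
      toConv ((1 : WithConv (B →ₗ[k] k)).ofConv.smulRight (MvPolynomial.X l ^ p)) := by
  classical
  have := crZ hc
  let A := WithConv (B →ₗ[k] MvPolynomial (Fin n) k)
  have hnt : Nontrivial (Zs m) := by
    refine ⟨⟨1, 0, fun h => ?_⟩⟩
    have h0 : (1 : A) = 0 := congrArg Subtype.val h
    have h1 := LinearMap.congr_fun (congrArg ofConv h0) (1 : B)
    change algebraMap k (MvPolynomial (Fin n) k) (Coalgebra.counit (R := k) (1 : B)) = 0 at h1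
    rw [Bialgebra.counit_one, map_one] at h1
    exact one_ne_zero h1
  have hch : CharP (Zs m) p := charP_of_injective_algebraMap (algebraMap k (Zs m)).injective p
  let z : Fin n → Zs m := fun i => ⟨toConv ((m i l).smulRight (MvPolynomial.X i)),
    smulRight_mem m i l _⟩
  have h1 : (⟨mu m l, mu_mem m l⟩ : Zs m) = ∑ i, z i := by
    apply Subtype.ext
    change mu m l = (Zs m).val (∑ i, z i)
    rw [map_sum]
    rfl
  have h2 : (∑ i, z i) ^ p = z l ^ p := by
    rw [sum_pow_char p]
    refine Finset.sum_eq_single l (fun i _ hi => ?_) (fun h => absurd (Finset.mem_univ l) h)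
    apply Subtype.ext
    change toConv ((m i l).smulRight (MvPolynomial.X i)) ^ p = (0 : A)
    rw [smulRight_pow, hmp, if_neg hi]
    refine congrArg toConv (LinearMap.ext fun b => ?_)
    change (0 : k) • (MvPolynomial.X i ^ p : MvPolynomial (Fin n) k) = 0
    rw [zero_smul]
  have h3 : Phi hc (MvPolynomial.X l ^ p) = (Zs m).val ((⟨mu m l, mu_mem m l⟩ : Zs m) ^ p) := by
    rw [map_pow, map_pow, Phi_X]
    rfl
  rw [h3, h1, h2, map_pow]
  change (toConv ((m l l).smulRight (MvPolynomial.X l)) : A) ^ p = _
  rw [smulRight_pow, hmp, if_pos rfl]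

theorem lact_pow_mul (hc : Comm m)
    (hmp : ∀ i j, toConv (m i j) ^ p = if i = j then 1 else 0) (l : Fin n)
    (g : MvPolynomial (Fin n) k) (b : B) :
    lact hc b (MvPolynomial.X l ^ p * g) = MvPolynomial.X l ^ p * lact hc b g := by
  have h : ∀ t : B ⊗[k] B, LinearMap.mul' k (MvPolynomial (Fin n) k) (TensorProduct.map
      ((1 : WithConv (B →ₗ[k] k)).ofConv.smulRight (MvPolynomial.X l ^ p))
        ((lact hc).flip g) t) =
      MvPolynomial.X l ^ p * lact hc (TensorProduct.lid k B
        (LinearMap.rTensor B (Coalgebra.counit (R := k)) t)) g := by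
    intro t
    induction t using TensorProduct.induction_on with
    | zero => simp
    | add s t hs ht => simp only [map_add, hs, ht, mul_add, LinearMap.add_apply]
    | tmul u v =>
      rw [TensorProduct.map_tmul, LinearMap.mul'_apply, LinearMap.rTensor_tmul,
        TensorProduct.lid_tmul, LinearMap.flip_apply, map_smul, LinearMap.smul_apply,
        mul_smul_comm, LinearMap.smulRight_apply, smul_mul_assoc]
      rfl
  have h1 : lact hc b (MvPolynomial.X l ^ p * g) = LinearMap.mul' k (MvPolynomial (Fin n) k)
      (TensorProduct.map ((1 : WithConv (B →ₗ[k] k)).ofConv.smulRight (MvPolynomial.X l ^ p))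
        ((lact hc).flip g) (Coalgebra.comul (R := k) b)) := by
    rw [lact_mul, lact_flip, Phi_X_pow hc hmp]
  rw [h1, h, Coalgebra.rTensor_counit_comul, TensorProduct.lid_tmul, one_smul]

theorem lam_X_pow_mul (hp : 0 < p) (i l : Fin n) (h : MvPolynomial (Fin n) k) :
    lam p i (MvPolynomial.X l ^ p * h) = if l = i then MvPolynomial.constantCoeff h else 0 := by
  classical
  change MvPolynomial.coeff (Finsupp.single i p) (MvPolynomial.X l ^ p * h) = _
  rw [MvPolynomial.X_pow_eq_monomial, MvPolynomial.coeff_monomial_mul']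
  by_cases hl : l = i
  · subst hl
    rw [if_pos le_rfl, if_pos rfl, tsub_self, one_mul]
    rfl
  · rw [if_neg, if_neg hl]
    intro hle
    have h1 := hle l
    rw [Finsupp.single_eq_same, Finsupp.single_eq_of_ne hl] at h1
    omega

theorem lact_lam (hc : Comm m)
    (hmp : ∀ i j, toConv (m i j) ^ p = if i = j then 1 else 0) (i : Fin n)
    (f : MvPolynomial (Fin n) k)
    (hf : ∀ s : Fin n →₀ ℕ, (∀ i, s i < p) → MvPolynomial.coeff s f = 0) (b : B) :
    lam p i (lact hc b f) = Coalgebra.counit (R := k) b * lam p i f := by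
  classical
  have hp : 0 < p := (Fact.out : p.Prime).pos
  have h1 : ∀ (l : Fin n) (g : MvPolynomial (Fin n) k),
      lam p i (lact hc b (MvPolynomial.X l ^ p * g)) =
        Coalgebra.counit (R := k) b * lam p i (MvPolynomial.X l ^ p * g) := by
    intro l g
    rw [lact_pow_mul hc hmp, lam_X_pow_mul hp, lam_X_pow_mul hp, lact_cst, mul_ite, mul_zero]
  have h2 : ∀ s ∈ f.support, lam p i (lact hc b (MvPolynomial.monomial s
      (MvPolynomial.coeff s f))) = Coalgebra.counit (R := k) b *
        lam p i (MvPolynomial.monomial s (MvPolynomial.coeff s f)) := by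
    intro s hs
    have hs' : ¬ ∀ i, s i < p := fun h => MvPolynomial.mem_support_iff.1 hs (hf s h)
    push Not at hs'
    obtain ⟨l, hl⟩ := hs'
    have h3 : MvPolynomial.monomial s (MvPolynomial.coeff s f) = MvPolynomial.X l ^ p *
        MvPolynomial.monomial (s - Finsupp.single l p) (MvPolynomial.coeff s f) := by
      have h4 : Finsupp.single l p + (s - Finsupp.single l p) = s := by
        ext j
        by_cases hj : j = l
        · subst hj
          simp only [Finsupp.coe_add, Finsupp.coe_tsub, Pi.add_apply, Pi.sub_apply,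
            Finsupp.single_eq_same]
          omega
        · simp [Finsupp.single_eq_of_ne hj]
      rw [MvPolynomial.X_pow_eq_monomial, MvPolynomial.monomial_mul, one_mul, h4]
    rw [h3, h1]
  rw [← MvPolynomial.support_sum_monomial_coeff f, map_sum, map_sum, map_sum, Finset.mul_sum]
  exact Finset.sum_congr rfl h2

end

section

variable {k : Type u} [Field k] {p : ℕ} [Fact p.Prime] [CharP k p] {F B : Type u} [CommRing F]
  [Ring B] [HopfAlgebra k F] [HopfAlgebra k B] (ι : F →ₐc[k] B) {n : ℕ}
  {m : Fin n → Fin n → (B →ₗ[k] k)}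

theorem lact_triv (hc : Comm m)
    (hι : ∀ (a : F) (i j : Fin n), m i j (ι a) = if i = j then Coalgebra.counit (R := k) a else 0)
    (f : MvPolynomial (Fin n) k) : ∀ a : F, lact hc (ι a) f = Coalgebra.counit (R := k) a • f := by
  induction f using MvPolynomial.induction_on with
  | C c =>
    intro a
    rw [lact_C, map_counit]
  | add f g hf hg =>
    intro a
    rw [map_add, hf, hg, smul_add]
  | mul_X f j hf =>
    intro a
    have h1 : Coalgebra.comul (R := k) (ι a) = TensorProduct.map ι.toCoalgHom.toLinearMap
        ι.toCoalgHom.toLinearMap (Coalgebra.comul (R := k) a) :=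
      (LinearMap.congr_fun ι.toCoalgHom.map_comp_comul a).symm
    have h2 : ∀ t : F ⊗[k] F, LinearMap.mul' k (MvPolynomial (Fin n) k) (TensorProduct.map
        ((lact hc).flip f) ((lact hc).flip (MvPolynomial.X j))
          (TensorProduct.map ι.toCoalgHom.toLinearMap ι.toCoalgHom.toLinearMap t)) =
        Coalgebra.counit (R := k) (TensorProduct.lid k F
          (LinearMap.rTensor F (Coalgebra.counit (R := k)) t)) • (f * MvPolynomial.X j) := by
      intro t
      induction t using TensorProduct.induction_on with
      | zero => simp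
      | add s t hs ht => simp only [map_add, hs, ht, add_smul]
      | tmul u v =>
        rw [TensorProduct.map_tmul, TensorProduct.map_tmul, LinearMap.mul'_apply,
          LinearMap.rTensor_tmul, TensorProduct.lid_tmul]
        change lact hc (ι u) f * lact hc (ι v) (MvPolynomial.X j) = _
        have h3 : lact hc (ι v) (MvPolynomial.X j) =
            Coalgebra.counit (R := k) v • MvPolynomial.X j := by
          rw [lact_X]
          simp only [hι, ite_smul, zero_smul]
          rw [Finset.sum_ite_eq' Finset.univ j, if_pos (Finset.mem_univ j)]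
        rw [hf, h3, smul_mul_smul_comm, map_smul, smul_eq_mul]
    rw [lact_mul, h1, h2, Coalgebra.rTensor_counit_comul, TensorProduct.lid_tmul, one_smul]

/-- **The lifted action.** -/
theorem exists_lact' (hι : Function.Injective ι) (c : Coords k p F n)
    (hm : ∀ b j, adj k b (ι (c.x j)) = ∑ i, m i j b • ι (c.x i)) (hc : Comm m)
    (hmp : ∀ i j, toConv (m i j) ^ p = if i = j then 1 else 0) :
    ∃ a : LAct ι c, ∀ b j, a.act b (MvPolynomial.X j) = ∑ i, m i j b • MvPolynomial.X i := by
  have hli : LinearIndependent k c.x := coords_li c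
  have hli' := li_map ι hι hli
  let θ : MvPolynomial (Fin n) k →ₐ[k] B := (ι : F →ₐ[k] B).comp c.ev
  have hθX : ∀ j, θ (MvPolynomial.X j) = ι (c.x j) := by
    intro j
    change ι (c.ev (MvPolynomial.X j)) = _
    rw [Coords.ev, MvPolynomial.aeval_X]
  have hθ : ∀ b j, adj k b (θ (MvPolynomial.X j)) = ∑ i, m i j b • θ (MvPolynomial.X i) := by
    intro b j
    simp only [hθX]
    exact hm b j
  refine ⟨{
    act := lact hc
    one_act := lact_one_act hc (m_one hli' hm)
    mul_act := fun b b' f => lact_mul_act hc (m_mul hli' hm) f b b'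
    act_one := lact_one hc
    act_mul := fun b f g => by rw [lift_eq, lact_mul]
    cst := fun b f => lact_cst hc f b
    comm := fun b f => by
      rw [lift_eq]
      exact (LinearMap.congr_fun (congrArg ofConv (lact_comm hc θ hθ f)) b).symm
    ker := fun b f hf => by
      apply hι
      rw [map_zero]
      exact lact_ker hc θ hθ f (by
        change ι (c.ev f) = 0
        rw [hf, map_zero]) b
    triv := fun a f => lact_triv ι hc (m_iota ι hι hli hm) f a
    lam := fun b i f hf => lact_lam hc hmp i f ((c.ev_eq_zero f).1 hf) b }, ?_⟩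
  intro b j
  exact lact_X hc b j

end

end Pool.Agent.Helper76.FA.Lin

namespace Pool.Agent.Helper76.FA

open Pool.Agent.Helper90.UN Pool.Agent.Helper90.FC Pool.Agent.Helper10.FA

universe u

section

variable {k : Type u} [Field k] {p : ℕ} [Fact p.Prime] {F : Type u} [CommRing F]
  [HopfAlgebra k F] {n : ℕ}

/-- Coordinates from the dimension. -/
theorem coords_of_finrank [Module.Finite k F] (x : Fin n → F)
    (hx0 : ∀ i, Coalgebra.counit (R := k) (x i) = 0) (hxp : ∀ i, x i ^ p = 0)
    (hgen : Algebra.adjoin k (Set.range x) = ⊤) (hdim : Module.finrank k F = p ^ n) :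
    ∃ c : Coords k p F n, c.x = x := by
  classical
  let mon : (Fin n → Fin p) → F := fun α => ∏ i, x i ^ (α i : ℕ)
  have hspan : Submodule.span k (Set.range mon) = ⊤ := by
    rw [eq_top_iff]
    intro a _
    have ha : a ∈ Algebra.adjoin k (Set.range x) := by
      rw [hgen]
      trivial
    have hP : ∀ f : MvPolynomial (Fin n) k, MvPolynomial.aeval x f ∈
        Submodule.span k (Set.range mon) := by
      intro f
      rw [← MvPolynomial.support_sum_monomial_coeff f, map_sum]
      refine Submodule.sum_mem _ fun s _ => ?_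
      rw [MvPolynomial.aeval_monomial, ← Algebra.smul_def, Finsupp.prod_fintype _ _
        (fun i => pow_zero _)]
      exact Submodule.smul_mem _ _ (FStr_mon_mem x hxp s)
    rw [Algebra.adjoin_range_eq_range_aeval] at ha
    obtain ⟨f, rfl⟩ := ha
    exact hP f
  have hcard : Fintype.card (Fin n → Fin p) = Module.finrank k F := by
    rw [hdim, Fintype.card_fun, Fintype.card_fin, Fintype.card_fin]
  refine ⟨⟨x, hx0, hxp, basisOfTopLeSpanOfCardEqFinrank mon hspan.ge hcard, fun α => ?_⟩, rfl⟩
  rw [coe_basisOfTopLeSpanOfCardEqFinrank]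

end

section

variable {k : Type u} [Field k] {p : ℕ} [Fact p.Prime] [CharP k p] {F B : Type u} [CommRing F]
  [Ring B] [HopfAlgebra k F] [HopfAlgebra k B] (ι : F →ₐc[k] B) {n : ℕ}
  {m : Fin n → Fin n → (B →ₗ[k] k)}

/-- Coordinates and the lifted action, for commuting matrix coefficients. -/
theorem exists_coords_lact' [Module.Finite k F] (hι : Function.Injective ι) (x : Fin n → F)
    (hx0 : ∀ i, Coalgebra.counit (R := k) (x i) = 0) (hxp : ∀ i, x i ^ p = 0)
    (hgen : Algebra.adjoin k (Set.range x) = ⊤) (hdim : Module.finrank k F = p ^ n)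
    (hm : ∀ b j, adj k b (ι (x j)) = ∑ i, m i j b • ι (x i))
    (hcm : ∀ i j i' j', toConv (m i j) * toConv (m i' j') = toConv (m i' j') * toConv (m i j))
    (hmp : ∀ i j, toConv (m i j) ^ p = if i = j then 1 else 0) :
    ∃ c : Coords k p F n, c.x = x ∧ ∃ a : LAct ι c,
      ∀ b j, a.act b (MvPolynomial.X j) = ∑ i, m i j b • MvPolynomial.X i := by
  obtain ⟨c, rfl⟩ := coords_of_finrank x hx0 hxp hgen hdim
  exact ⟨c, rfl, Lin.exists_lact' ι hι c hm hcm hmp⟩

end

end Pool.Agent.Helper76.FA
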